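import Pool.Agent.Lib.MP_6bc78b_nt.MS.P3.H6.Gm

set_option autoImplicit false

open Filter Topology MeasureTheory Set

namespace Pool.Agent.Lib.MP_6bc78b_nt.MS.P3.H6

theorem pow_sub_one_le (j : ℕ) (x : ℝ) : |(1 + x) ^ j - 1| ≤ j * |x| * (1 + |x|) ^ j := by
  induction j with
  | zero => simp
  | succ n ih =>
    have e : (1 + x) ^ (n + 1) - 1 = (1 + x) * ((1 + x) ^ n - 1) + x := by ring
    rw [e]
    have h0 := abs_nonneg x
    have h1 : |1 + x| ≤ 1 + |x| := by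
      refine (abs_add_le _ _).trans ?_
      rw [abs_one]
    have h2 : (1 : ℝ) ≤ (1 + |x|) ^ (n + 1) := one_le_pow₀ (by linarith)
    calc |(1 + x) * ((1 + x) ^ n - 1) + x| ≤ |(1 + x) * ((1 + x) ^ n - 1)| + |x| := abs_add_le _ _
      _ = |1 + x| * |(1 + x) ^ n - 1| + |x| := by rw [abs_mul]
      _ ≤ (1 + |x|) * (n * |x| * (1 + |x|) ^ n) + |x| * (1 + |x|) ^ (n + 1) := by
          refine add_le_add (mul_le_mul h1 ih (abs_nonneg _) (by positivity)) ?_
          exact le_mul_of_one_le_right h0 h2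
      _ = _ := by push_cast; ring

/-- the pointwise error, in terms of `λ = log ρ` -/
theorem pointwise_aux (j : ℕ) {R L lam : ℝ} {Z : ℂ} (hL : 1 ≤ L) (hLR : 4 * R ≤ L)
    (hZ : ‖Z‖ ≤ R) :
    ‖((((1 + lam / L) ^ j : ℝ) : ℂ)) * Complex.exp (Z * lam / L) - 1‖ ≤
      (R + j) / L * ((1 + |lam|) ^ (j + 1) * Real.exp (|lam| / 4)) := by
  have hR : 0 ≤ R := (norm_nonneg _).trans hZ
  have hL0 : 0 < L := by linarith
  have hl := abs_nonneg lam
  have e : ((((1 + lam / L) ^ j : ℝ) : ℂ)) * Complex.exp (Z * lam / L) - 1 =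
      ((((1 + lam / L) ^ j : ℝ) : ℂ)) * (Complex.exp (Z * lam / L) - 1) +
        ((((1 + lam / L) ^ j - 1 : ℝ)) : ℂ) := by
    push_cast; ring
  rw [e]
  have hx : |lam / L| ≤ |lam| / L := by rw [abs_div, abs_of_pos hL0]
  have hx1 : |lam / L| ≤ |lam| := hx.trans (div_le_self hl hL)
  have h1 : ‖((((1 + lam / L) ^ j : ℝ) : ℂ))‖ ≤ (1 + |lam|) ^ j := by
    rw [Complex.norm_real, Real.norm_eq_abs, abs_pow]
    refine pow_le_pow_left₀ (abs_nonneg _) ?_ j
    refine (abs_add_le _ _).trans ?_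
    rw [abs_one]; linarith
  have hw : ‖Z * lam / L‖ ≤ R * |lam| / L := by
    rw [norm_div, norm_mul, Complex.norm_real, Complex.norm_real, Real.norm_eq_abs,
      Real.norm_eq_abs, abs_of_pos hL0]
    refine div_le_div_of_nonneg_right ?_ hL0.le
    exact mul_le_mul_of_nonneg_right hZ hl
  have hw4 : R * |lam| / L ≤ |lam| / 4 := by
    rw [div_le_div_iff₀ hL0 (by norm_num)]
    nlinarith
  have h2 : ‖Complex.exp (Z * lam / L) - 1‖ ≤ R * |lam| / L * Real.exp (|lam| / 4) := by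
    have h3 := Complex.norm_exp_sub_sum_le_norm_mul_exp (Z * lam / L) 1
    simp only [Finset.range_one, Finset.sum_singleton, pow_zero, Nat.factorial_zero, Nat.cast_one,
      div_one, pow_one] at h3
    refine h3.trans ?_
    exact mul_le_mul hw (Real.exp_le_exp.2 (hw.trans hw4)) (Real.exp_pos _).le (by positivity)
  have h4 : ‖((((1 + lam / L) ^ j - 1 : ℝ)) : ℂ)‖ ≤ j * (|lam| / L) * (1 + |lam|) ^ j := by
    rw [Complex.norm_real, Real.norm_eq_abs]
    refine (pow_sub_one_le j _).trans ?_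
    refine mul_le_mul (mul_le_mul_of_nonneg_left hx (Nat.cast_nonneg j)) ?_ (by positivity)
      (by positivity)
    exact pow_le_pow_left₀ (by positivity) (by linarith) j
  have hE : 1 ≤ Real.exp (|lam| / 4) := Real.one_le_exp (by positivity)
  set E := Real.exp (|lam| / 4) with hEdef
  have hP : 0 < (1 + |lam|) ^ j := by positivity
  have hj0 : (0 : ℝ) ≤ j := Nat.cast_nonneg j
  calc _ ≤ ‖((((1 + lam / L) ^ j : ℝ) : ℂ)) * (Complex.exp (Z * lam / L) - 1)‖ +
        ‖((((1 + lam / L) ^ j - 1 : ℝ)) : ℂ)‖ := norm_add_le _ _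
    _ ≤ (1 + |lam|) ^ j * (R * |lam| / L * E) + j * (|lam| / L) * (1 + |lam|) ^ j := by
        rw [norm_mul]
        exact add_le_add (mul_le_mul h1 h2 (norm_nonneg _) hP.le) h4
    _ ≤ (1 + |lam|) ^ j * (R * |lam| / L * E) + j * (|lam| / L) * (1 + |lam|) ^ j * E := by
        refine add_le_add le_rfl ?_
        exact le_mul_of_one_le_right (by positivity) hE
    _ = (R + j) / L * ((1 + |lam|) ^ j * |lam| * E) := by ring
    _ ≤ (R + j) / L * ((1 + |lam|) ^ (j + 1) * E) := by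
        refine mul_le_mul_of_nonneg_left ?_ (by positivity)
        refine mul_le_mul_of_nonneg_right ?_ (by positivity)
        rw [pow_succ]
        exact mul_le_mul_of_nonneg_left (by linarith) hP.le

theorem exp_abs_le {rho : ℝ} (h : 0 < rho) :
    Real.exp (|Real.log rho| / 4) ≤ rho ^ (1 / 4 : ℝ) + rho ^ (-(1 / 4) : ℝ) := by
  rcases le_total 0 (Real.log rho) with h1 | h1
  · rw [abs_of_nonneg h1, Real.rpow_def_of_pos h, Real.rpow_def_of_pos h]
    have := Real.exp_pos (Real.log rho * -(1 / 4))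
    have e : Real.log rho / 4 = Real.log rho * (1 / 4) := by ring
    rw [e]; linarith
  · rw [abs_of_nonpos h1, Real.rpow_def_of_pos h, Real.rpow_def_of_pos h]
    have := Real.exp_pos (Real.log rho * (1 / 4))
    have e : -Real.log rho / 4 = Real.log rho * -(1 / 4) := by ring
    rw [e]; linarith

noncomputable def C1 (j : ℕ) (R : ℝ) : ℝ := 2 * (R + j) * (1 + 4 * ((j + 1 : ℕ) : ℝ)) ^ (j + 1)

theorem pointwise (j : ℕ) {R T r : ℝ} {Z : ℂ} (hT : 3 ≤ T) (hLR : 4 * R ≤ Real.log T)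
    (hZ : ‖Z‖ ≤ R) (hr : 0 < r) :
    ‖(r : ℂ) ^ (Z / Real.log T) * ((Real.log r ^ j : ℝ) : ℂ) -
      Complex.exp Z * ((Real.log T ^ j : ℝ) : ℂ)‖ ≤
      Real.exp R * Real.log T ^ j * (C1 j R / Real.log T *
        ((r / T) ^ (1 / 2 : ℝ) + (r / T) ^ (-(1 / 2) : ℝ))) := by
  have hR : 0 ≤ R := (norm_nonneg _).trans hZ
  have hT0 : 0 < T := by linarith
  have hL := one_le_log hT
  set L := Real.log T with hLdef
  have hL0 : 0 < L := by linarith
  have hrho : 0 < r / T := by positivity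
  set rho := r / T with hrhodef
  set lam := Real.log rho with hlam
  have e1 : Real.log r = L * (1 + lam / L) := by
    rw [hlam, hrhodef, Real.log_div hr.ne' hT0.ne']
    field_simp
    ring
  have hLc : (L : ℂ) ≠ 0 := by exact_mod_cast hL0.ne'
  have e2 : (r : ℂ) ^ (Z / L) = Complex.exp Z * Complex.exp (Z * lam / L) := by
    rw [Complex.cpow_def_of_ne_zero (by exact_mod_cast hr.ne'), ← Complex.ofReal_log hr.le, e1,
      ← Complex.exp_add]
    congr 1
    push_cast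
    field_simp
  have e3 : (r : ℂ) ^ (Z / L) * ((Real.log r ^ j : ℝ) : ℂ) -
      Complex.exp Z * ((L ^ j : ℝ) : ℂ) = (Complex.exp Z * ((L ^ j : ℝ) : ℂ)) *
        (((((1 + lam / L) ^ j : ℝ) : ℂ)) * Complex.exp (Z * lam / L) - 1) := by
    rw [e2, e1, mul_pow]
    push_cast
    ring
  rw [e3, norm_mul, norm_mul]
  have h1 : ‖Complex.exp Z‖ ≤ Real.exp R := by
    rw [Complex.norm_exp]
    exact Real.exp_le_exp.2 ((Complex.re_le_norm Z).trans hZ)
  have h2 : ‖((L ^ j : ℝ) : ℂ)‖ = L ^ j := by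
    rw [Complex.norm_real, Real.norm_of_nonneg (by positivity)]
  rw [h2]
  have h3 := pointwise_aux j (lam := lam) hL hLR hZ
  have h4 : (1 + |lam|) ^ (j + 1) * Real.exp (|lam| / 4) ≤
      2 * (1 + 4 * ((j + 1 : ℕ) : ℝ)) ^ (j + 1) * (rho ^ (1 / 2 : ℝ) + rho ^ (-(1 / 2) : ℝ)) := by
    have h5 := log_pow_le (j + 1) (δ := 1 / 4) (by norm_num) hrho
    have h6 := exp_abs_le hrho
    have e4 : (1 : ℝ) + ((j + 1 : ℕ) : ℝ) / (1 / 4) = 1 + 4 * ((j + 1 : ℕ) : ℝ) := by ring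
    rw [e4] at h5
    set a := rho ^ (1 / 4 : ℝ) with ha
    set b := rho ^ (-(1 / 4) : ℝ) with hb
    have ha2 : a ^ 2 = rho ^ (1 / 2 : ℝ) := by
      rw [ha, ← Real.rpow_natCast, ← Real.rpow_mul hrho.le]
      congr 1; norm_num
    have hb2 : b ^ 2 = rho ^ (-(1 / 2) : ℝ) := by
      rw [hb, ← Real.rpow_natCast, ← Real.rpow_mul hrho.le]
      congr 1; norm_num
    have hab : (a + b) * (a + b) ≤ 2 * (rho ^ (1 / 2 : ℝ) + rho ^ (-(1 / 2) : ℝ)) := by
      rw [← ha2, ← hb2]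
      nlinarith [sq_nonneg (a - b)]
    have ha0 : 0 < a := Real.rpow_pos_of_pos hrho _
    have hb0 : 0 < b := Real.rpow_pos_of_pos hrho _
    calc (1 + |lam|) ^ (j + 1) * Real.exp (|lam| / 4)
        ≤ ((1 + 4 * ((j + 1 : ℕ) : ℝ)) ^ (j + 1) * (a + b)) * (a + b) :=
          mul_le_mul h5 h6 (Real.exp_pos _).le (by positivity)
      _ = (1 + 4 * ((j + 1 : ℕ) : ℝ)) ^ (j + 1) * ((a + b) * (a + b)) := by ring
      _ ≤ (1 + 4 * ((j + 1 : ℕ) : ℝ)) ^ (j + 1) *
          (2 * (rho ^ (1 / 2 : ℝ) + rho ^ (-(1 / 2) : ℝ))) :=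
          mul_le_mul_of_nonneg_left hab (by positivity)
      _ = _ := by ring
  refine mul_le_mul (mul_le_mul_of_nonneg_right h1 (by positivity)) ?_ (norm_nonneg _)
    (by positivity)
  refine h3.trans ?_
  calc (R + j) / L * ((1 + |lam|) ^ (j + 1) * Real.exp (|lam| / 4))
      ≤ (R + j) / L * (2 * (1 + 4 * ((j + 1 : ℕ) : ℝ)) ^ (j + 1) *
        (rho ^ (1 / 2 : ℝ) + rho ^ (-(1 / 2) : ℝ))) :=
        mul_le_mul_of_nonneg_left h4 (by positivity)
    _ = _ := by rw [C1]; ring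

theorem integrable_GG {T : ℝ} (hT : 1 < T) : Integrable (GG T) ∧ ∫ r : ℝ, GG T r = cG T := by
  have h := integral_gauss_vr hT (b := 1) one_pos
  have e : (fun r : ℝ => Real.exp (-1 * (vr T r) ^ 2)) = GG T := by
    funext r; rw [GG_eq]; congr 1; ring
  rw [e] at h
  refine ⟨h.1, ?_⟩
  have h2 := h.2
  have e2 : ∫ r : ℝ, GG T r = DD T / (2 * Real.pi) * Real.sqrt (Real.pi / 1) := by
    rw [← h2]
  rw [e2, cG, div_one]
  have h3 : Real.sqrt Real.pi * Real.sqrt Real.pi = Real.pi := Real.mul_self_sqrt Real.pi_pos.le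
  have h4 : 0 < Real.sqrt Real.pi := Real.sqrt_pos.2 Real.pi_pos
  have h5 := Real.pi_pos
  rw [div_mul_eq_mul_div, div_eq_div_iff (by positivity) (by positivity)]
  calc DD T * Real.sqrt Real.pi * (2 * Real.sqrt Real.pi)
      = DD T * (2 * (Real.sqrt Real.pi * Real.sqrt Real.pi)) := by ring
    _ = _ := by rw [h3]

/-- the part of the Gaussian on the negative axis -/
theorem tail_GG {T : ℝ} (hT : 3 ≤ T) :
    |(∫ r in Ioi (0 : ℝ), GG T r) - cG T| ≤ 4 * cG T / Real.log T := by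
  have hT1 : 1 < T := by linarith
  have hD := DD_pos hT1
  have hL := one_le_log hT
  obtain ⟨hi, he⟩ := integrable_GG hT1
  have h1 : (∫ r in Iic (0 : ℝ), GG T r) + (∫ r in Ioi (0 : ℝ), GG T r) = cG T := by
    rw [← he]
    exact intervalIntegral.integral_Iic_add_Ioi hi.integrableOn hi.integrableOn
  have h2 : (∫ r in Ioi (0 : ℝ), GG T r) - cG T = -(∫ r in Iic (0 : ℝ), GG T r) := by linarith
  rw [h2, abs_neg, abs_of_nonneg (setIntegral_nonneg measurableSet_Iic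
    fun r _ => (GG_pos T r).le)]
  set ℓ := T / DD T with hℓ
  have hg := integral_gauss_vr hT1 (b := 1 / 2) (by norm_num)
  have h3 : ∫ r in Iic (0 : ℝ), GG T r ≤
      ∫ r in Iic (0 : ℝ), Real.exp (-ℓ ^ 2 / 2) * Real.exp (-(1 / 2) * (vr T r) ^ 2) := by
    refine setIntegral_mono_on hi.integrableOn (hg.1.const_mul _).integrableOn measurableSet_Iic ?_
    intro r hr
    have hr0 : r ≤ 0 := hr
    rw [GG_eq, ← Real.exp_add]
    refine Real.exp_le_exp.2 ?_
    have h4 : vr T r ≤ -ℓ := by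
      rw [vr, hℓ, div_le_iff₀ hD]
      have e1 : -(T / DD T) * DD T = -T := by field_simp
      rw [e1]
      have := Real.pi_pos
      nlinarith
    have h5 : 1 ≤ ℓ := one_le_ell hT
    nlinarith
  have h6 : ∫ r in Iic (0 : ℝ), Real.exp (-ℓ ^ 2 / 2) * Real.exp (-(1 / 2) * (vr T r) ^ 2) ≤
      ∫ r : ℝ, Real.exp (-ℓ ^ 2 / 2) * Real.exp (-(1 / 2) * (vr T r) ^ 2) :=
    setIntegral_le_integral (hg.1.const_mul _) (Eventually.of_forall fun r => by positivity)
  refine (h3.trans h6).trans ?_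
  rw [integral_const_mul, hg.2]
  have hpi := Real.pi_pos
  have h7 : Real.sqrt (Real.pi / (1 / 2)) ≤ 2 * Real.sqrt Real.pi := by
    rw [Real.sqrt_le_left (by positivity), mul_pow, Real.sq_sqrt hpi.le]
    linarith
  have h8 : DD T / (2 * Real.pi) * Real.sqrt (Real.pi / (1 / 2)) ≤ 2 * cG T := by
    have h3' : Real.sqrt Real.pi * Real.sqrt Real.pi = Real.pi := Real.mul_self_sqrt hpi.le
    have h4' : 0 < Real.sqrt Real.pi := Real.sqrt_pos.2 hpi
    calc DD T / (2 * Real.pi) * Real.sqrt (Real.pi / (1 / 2))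
        ≤ DD T / (2 * Real.pi) * (2 * Real.sqrt Real.pi) :=
          mul_le_mul_of_nonneg_left h7 (by positivity)
      _ = 2 * cG T := by
          rw [cG, div_mul_eq_mul_div, mul_div_assoc', div_eq_div_iff (by positivity)
            (by positivity)]
          calc DD T * (2 * Real.sqrt Real.pi) * (2 * Real.sqrt Real.pi)
              = DD T * (4 * (Real.sqrt Real.pi * Real.sqrt Real.pi)) := by ring
            _ = _ := by rw [h3']; ring
  have hc : 0 < cG T := by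
    rw [cG]; positivity
  have h9 : Real.exp (-ℓ ^ 2 / 2) ≤ 2 / Real.log T := by
    have hℓ2 : Real.log T ≤ ℓ ^ 2 := by
      rw [hℓ, T_div_DD hT1, ← Real.rpow_natCast, ← Real.rpow_mul (by linarith)]
      calc Real.log T = Real.log T ^ (1 : ℝ) := (Real.rpow_one _).symm
        _ ≤ _ := Real.rpow_le_rpow_of_exponent_le hL (by norm_num)
    have h10 := Real.add_one_le_exp (ℓ ^ 2 / 2)
    have h11 : Real.exp (-ℓ ^ 2 / 2) * Real.exp (ℓ ^ 2 / 2) = 1 := by
      rw [← Real.exp_add]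
      have : -ℓ ^ 2 / 2 + ℓ ^ 2 / 2 = 0 := by ring
      rw [this, Real.exp_zero]
    have h12 : 0 < Real.exp (-ℓ ^ 2 / 2) := Real.exp_pos _
    rw [le_div_iff₀ (by linarith)]
    have h13 : Real.log T ≤ 2 * Real.exp (ℓ ^ 2 / 2) := by linarith
    calc Real.exp (-ℓ ^ 2 / 2) * Real.log T ≤
          Real.exp (-ℓ ^ 2 / 2) * (2 * Real.exp (ℓ ^ 2 / 2)) :=
          mul_le_mul_of_nonneg_left h13 h12.le
      _ = 2 * (Real.exp (-ℓ ^ 2 / 2) * Real.exp (ℓ ^ 2 / 2)) := by ring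
      _ = 2 := by rw [h11]; norm_num
  have hL0 : 0 < Real.log T := by linarith
  calc Real.exp (-ℓ ^ 2 / 2) * (DD T / (2 * Real.pi) * Real.sqrt (Real.pi / (1 / 2)))
      ≤ 2 / Real.log T * (2 * cG T) := mul_le_mul h9 h8 (by positivity) (by positivity)
    _ = _ := by ring

/-- the effective form of the limit -/
theorem Gm_limit_bound (j : ℕ) {R T : ℝ} {Z : ℂ} (hT : 3 ≤ T) (hLR : 4 * R ≤ Real.log T)
    (hZ : ‖Z‖ ≤ R) :
    ‖Gm j T (1 + Z / Real.log T) / (cG T * Real.log T ^ j) - Complex.exp Z‖ ≤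
      Real.exp R * (C1 j R * 20000 + 4) / Real.log T := by
  have hR : 0 ≤ R := (norm_nonneg _).trans hZ
  have hT0 : 0 < T := by linarith
  have hT1 : 1 < T := by linarith
  have hL := one_le_log hT
  have hD := DD_pos hT1
  have hpi := Real.pi_pos
  have hL0 : 0 < Real.log T := by linarith
  have hc : 0 < cG T := by rw [cG]; positivity
  have hC1 : 0 ≤ C1 j R := by rw [C1]; positivity
  obtain ⟨hi, he⟩ := integrable_GG hT1
  obtain ⟨ha, hb⟩ := integral_rpow_ge_le hT (p := 1 / 2) (by norm_num) (by norm_num)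
  obtain ⟨hc', hd⟩ := integral_rpow_ge_le hT (p := -(1 / 2)) (by norm_num) (by norm_num)
  set L := Real.log T with hLdef
  -- the main term
  set G0 : ℂ := Complex.exp Z * ((L ^ j : ℝ) : ℂ) with hG0
  have hnG0 : ‖G0‖ ≤ Real.exp R * L ^ j := by
    rw [hG0, norm_mul, Complex.norm_real, Real.norm_of_nonneg (by positivity), Complex.norm_exp]
    refine mul_le_mul_of_nonneg_right ?_ (by positivity)
    exact Real.exp_le_exp.2 ((Complex.re_le_norm Z).trans hZ)
  have hint1 : IntegrableOn (fun r : ℝ => (r : ℂ) ^ (Z / L) * ((g0 j T r : ℝ) : ℂ)) (Ioi 0) := by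
    refine (bd_g0 (T := T) j).integrableOn hT1 zero_le_one ?_
    have h1 : |(Z / L).re| ≤ 1 / 4 := by
      refine (Complex.abs_re_le_norm _).trans ?_
      rw [norm_div, Complex.norm_real, Real.norm_of_nonneg hL0.le, div_le_iff₀ hL0]
      linarith
    have := (abs_le.1 h1).1
    linarith
  have hint2 : IntegrableOn (fun r : ℝ => G0 * ((GG T r : ℝ) : ℂ)) (Ioi 0) := by
    have : Integrable (fun r : ℝ => ((GG T r : ℝ) : ℂ)) := hi.ofReal
    exact (this.const_mul G0).integrableOn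
  have e1 : Gm j T (1 + Z / L) = ∫ r in Ioi (0 : ℝ), (r : ℂ) ^ (Z / L) * ((g0 j T r : ℝ) : ℂ) := by
    rw [Gm_eq, mellin]
    refine setIntegral_congr_fun measurableSet_Ioi fun r _ => ?_
    simp only [smul_eq_mul]
    congr 2
    ring
  have e2 : (∫ r in Ioi (0 : ℝ), G0 * ((GG T r : ℝ) : ℂ)) =
      G0 * ((∫ r in Ioi (0 : ℝ), GG T r : ℝ) : ℂ) := by
    rw [integral_const_mul, integral_complex_ofReal]
  have h1 : ‖Gm j T (1 + Z / L) - G0 * ((∫ r in Ioi (0 : ℝ), GG T r : ℝ) : ℂ)‖ ≤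
      Real.exp R * L ^ j * (C1 j R / L * (5000 * DD T)) := by
    rw [e1, ← e2, ← integral_sub hint1 hint2]
    have hbound : ∀ r ∈ Ioi (0 : ℝ), ‖(r : ℂ) ^ (Z / L) * ((g0 j T r : ℝ) : ℂ) -
        G0 * ((GG T r : ℝ) : ℂ)‖ ≤ Real.exp R * L ^ j * (C1 j R / L) *
          ((r / T) ^ (1 / 2 : ℝ) * ge T r + (r / T) ^ (-(1 / 2) : ℝ) * ge T r) := by
      intro r hr
      have hr0 : (0 : ℝ) < r := hr
      have hrT : 0 < r / T := by positivity
      have h2 := pointwise j hT hLR hZ hr0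
      have e3 : (r : ℂ) ^ (Z / L) * ((g0 j T r : ℝ) : ℂ) - G0 * ((GG T r : ℝ) : ℂ) =
          ((r : ℂ) ^ (Z / L) * ((Real.log r ^ j : ℝ) : ℂ) - G0) * ((GG T r : ℝ) : ℂ) := by
        rw [g0]; push_cast; ring
      rw [e3, norm_mul, Complex.norm_real (GG T r), Real.norm_of_nonneg (GG_pos T r).le]
      calc _ ≤ (Real.exp R * L ^ j * (C1 j R / L *
            ((r / T) ^ (1 / 2 : ℝ) + (r / T) ^ (-(1 / 2) : ℝ)))) * ge T r :=
            mul_le_mul h2 (GG_le_ge T r) (GG_pos T r).le (by positivity)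
        _ = _ := by ring
    have hint3 : IntegrableOn (fun r : ℝ => Real.exp R * L ^ j * (C1 j R / L) *
        ((r / T) ^ (1 / 2 : ℝ) * ge T r + (r / T) ^ (-(1 / 2) : ℝ) * ge T r)) (Ioi 0) :=
      (Integrable.add ha hc').const_mul _
    refine (norm_integral_le_of_norm_le hint3
      ((ae_restrict_mem measurableSet_Ioi).mono hbound)).trans ?_
    rw [integral_const_mul, integral_add ha hc']
    have h3 : (∫ r in Ioi (0 : ℝ), (r / T) ^ (1 / 2 : ℝ) * ge T r) +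
        (∫ r in Ioi (0 : ℝ), (r / T) ^ (-(1 / 2) : ℝ) * ge T r) ≤ 5000 * DD T := by
      have e4 : (8 : ℝ) / (1 / 2 + 1) + 2000 ≤ 2500 := by norm_num
      have e5 : (8 : ℝ) / (-(1 / 2) + 1) + 2000 ≤ 2500 := by norm_num
      nlinarith
    calc Real.exp R * L ^ j * (C1 j R / L) *
          ((∫ r in Ioi (0 : ℝ), (r / T) ^ (1 / 2 : ℝ) * ge T r) +
          (∫ r in Ioi (0 : ℝ), (r / T) ^ (-(1 / 2) : ℝ) * ge T r))
        ≤ Real.exp R * L ^ j * (C1 j R / L) * (5000 * DD T) :=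
          mul_le_mul_of_nonneg_left h3 (by positivity)
      _ = _ := by ring
  have h4 := tail_GG hT
  have h5 : ‖G0 * ((∫ r in Ioi (0 : ℝ), GG T r : ℝ) : ℂ) - G0 * ((cG T : ℝ) : ℂ)‖ ≤
      Real.exp R * L ^ j * (4 * cG T / L) := by
    rw [← mul_sub, norm_mul, ← Complex.ofReal_sub, Complex.norm_real, Real.norm_eq_abs]
    exact mul_le_mul hnG0 h4 (abs_nonneg _) (by positivity)
  have h6 : ‖Gm j T (1 + Z / L) - G0 * ((cG T : ℝ) : ℂ)‖ ≤
      Real.exp R * L ^ j * (C1 j R / L * (5000 * DD T)) + Real.exp R * L ^ j * (4 * cG T / L) := by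
    have e6 : Gm j T (1 + Z / L) - G0 * ((cG T : ℝ) : ℂ) =
        (Gm j T (1 + Z / L) - G0 * ((∫ r in Ioi (0 : ℝ), GG T r : ℝ) : ℂ)) +
        (G0 * ((∫ r in Ioi (0 : ℝ), GG T r : ℝ) : ℂ) - G0 * ((cG T : ℝ) : ℂ)) := by ring
    rw [e6]
    exact (norm_add_le _ _).trans (add_le_add h1 h5)
  have hDc : DD T ≤ 4 * cG T := by
    have h7 : Real.sqrt Real.pi ≤ 2 := by
      rw [Real.sqrt_le_left (by norm_num)]
      have := Real.pi_lt_d2
      linarith
    have h8 : 0 < Real.sqrt Real.pi := Real.sqrt_pos.2 hpi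
    rw [cG, mul_div_assoc', le_div_iff₀ (by positivity)]
    nlinarith
  have hLj : (L : ℂ) ≠ 0 := by exact_mod_cast hL0.ne'
  have hcc : ((cG T : ℝ) : ℂ) ≠ 0 := by exact_mod_cast hc.ne'
  have e7 : Gm j T (1 + Z / L) / (cG T * L ^ j) - Complex.exp Z =
      (Gm j T (1 + Z / L) - G0 * ((cG T : ℝ) : ℂ)) / (cG T * L ^ j) := by
    rw [hG0]
    push_cast
    field_simp
  have hn : ‖((cG T : ℝ) : ℂ) * (L : ℂ) ^ j‖ = cG T * L ^ j := by
    rw [norm_mul, norm_pow, Complex.norm_real, Complex.norm_real, Real.norm_of_nonneg hc.le,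
      Real.norm_of_nonneg hL0.le]
  rw [e7, norm_div, hn, div_le_iff₀ (by positivity)]
  refine h6.trans ?_
  have h9 : Real.exp R * L ^ j * (C1 j R / L * (5000 * DD T)) ≤
      Real.exp R * L ^ j * (C1 j R / L * (5000 * (4 * cG T))) := by
    refine mul_le_mul_of_nonneg_left ?_ (by positivity)
    refine mul_le_mul_of_nonneg_left ?_ (by positivity)
    linarith
  calc _ ≤ Real.exp R * L ^ j * (C1 j R / L * (5000 * (4 * cG T))) +
        Real.exp R * L ^ j * (4 * cG T / L) := add_le_add h9 le_rfl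
    _ = _ := by ring

theorem Gm_limit (j : ℕ) (R ε : ℝ) (hε : 0 < ε) : ∀ᶠ T : ℝ in atTop, ∀ Z : ℂ, ‖Z‖ ≤ R →
    ‖Gm j T (1 + Z / Real.log T) / (cG T * Real.log T ^ j) - Complex.exp Z‖ ≤ ε := by
  have h1 : ∀ᶠ T : ℝ in atTop,
      max (4 * R) (Real.exp R * (C1 j R * 20000 + 4) / ε) ≤ Real.log T :=
    Real.tendsto_log_atTop.eventually (eventually_ge_atTop _)
  filter_upwards [h1, eventually_ge_atTop (3 : ℝ)] with T hT hT3 Z hZ
  have hL := one_le_log hT3
  have h2 : 4 * R ≤ Real.log T := (le_max_left _ _).trans hT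
  have h3 : Real.exp R * (C1 j R * 20000 + 4) / ε ≤ Real.log T := (le_max_right _ _).trans hT
  refine (Gm_limit_bound j hT3 h2 hZ).trans ?_
  rw [div_le_iff₀ (by linarith)]
  rw [div_le_iff₀ hε] at h3
  linarith

end Pool.Agent.Lib.MP_6bc78b_nt.MS.P3.H6

namespace Pool.Agent.Lib.MP_6bc78b_nt.MS.P3

theorem gm : GmStatement := by
  refine ⟨fun j T σ x hT hσ hx => ⟨H6.Gm_integrable j hT hσ, H6.Gm_inversion j hT hσ hx⟩,
    fun j T s hT hs => H6.Gm_differentiableAt j hT hs, fun j => ?_,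
    fun j R ε hε => H6.Gm_limit j R ε hε⟩
  obtain ⟨C, hC, h⟩ := H6.Gm_bound j
  exact ⟨C, 3, hC, h⟩

end Pool.Agent.Lib.MP_6bc78b_nt.MS.P3
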