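import Pool.Agent.Lib.MP_6bc78b_nt.MS.P3.H6.GmB
import Pool.Agent.Lib.MP_6bc78b_nt.MS.P3.Iface

set_option autoImplicit false

open Filter Topology MeasureTheory Set

namespace Pool.Agent.Lib.MP_6bc78b_nt.MS.P3.H6

/-- `2 π r / D` -/
noncomputable def mr (T r : ℝ) : ℝ := 2 * Real.pi * r / DD T

/-- the real coefficient functions -/
noncomputable def g0 (j : ℕ) (T r : ℝ) : ℝ := Real.log r ^ j * GG T r

noncomputable def g1 (j : ℕ) (T r : ℝ) : ℝ :=
  (j * Real.log r ^ (j - 1) - 2 * vr T r * mr T r * Real.log r ^ j) * GG T r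

noncomputable def g2 (j : ℕ) (T r : ℝ) : ℝ :=
  (j * ((j - 1 : ℕ) * Real.log r ^ (j - 1 - 1)) -
    4 * j * vr T r * mr T r * Real.log r ^ (j - 1) +
    (-2 * (mr T r ^ 2 + vr T r * mr T r) + 4 * vr T r ^ 2 * mr T r ^ 2) * Real.log r ^ j) * GG T r

theorem hasDerivAt_vr (T r : ℝ) : HasDerivAt (vr T) (2 * Real.pi / DD T) r := by
  have h : HasDerivAt (fun r : ℝ => (2 * Real.pi * r - T) / DD T) ((2 * Real.pi * 1) / DD T) r :=
    (((hasDerivAt_id r).const_mul (2 * Real.pi)).sub_const T).div_const (DD T)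
  rw [mul_one] at h
  exact h

theorem hasDerivAt_mr (T r : ℝ) : HasDerivAt (mr T) (2 * Real.pi / DD T) r := by
  have h : HasDerivAt (fun r : ℝ => (2 * Real.pi * r) / DD T) ((2 * Real.pi * 1) / DD T) r :=
    ((hasDerivAt_id r).const_mul (2 * Real.pi)).div_const (DD T)
  rw [mul_one] at h
  exact h

theorem hasDerivAt_GG (T r : ℝ) :
    HasDerivAt (GG T) (-(2 * vr T r * (2 * Real.pi / DD T)) * GG T r) r := by
  have h1 : HasDerivAt (fun r => Real.exp (-(vr T r) ^ 2))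
      (Real.exp (-(vr T r) ^ 2) * -(2 * (vr T r) * (2 * Real.pi / DD T))) r := by
    have h2 := ((hasDerivAt_vr T r).pow 2).neg
    have h3 := h2.exp
    refine h3.congr_deriv ?_
    simp
  have h4 : GG T = fun r => Real.exp (-(vr T r) ^ 2) := funext fun r => GG_eq T r
  rw [h4]
  refine h1.congr_deriv ?_
  ring

theorem hasDerivAt_logpow (j : ℕ) {r : ℝ} (hr : 0 < r) :
    HasDerivAt (fun r => Real.log r ^ j) (j * Real.log r ^ (j - 1) * (1 / r)) r := by
  have h := (Real.hasDerivAt_log hr.ne').pow j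
  refine h.congr_deriv ?_
  rw [one_div]

theorem hasDerivAt_g0 (j : ℕ) (T : ℝ) {r : ℝ} (hr : 0 < r) :
    HasDerivAt (g0 j T) (g1 j T r / r) r := by
  have h := (hasDerivAt_logpow j hr).mul (hasDerivAt_GG T r)
  refine h.congr_deriv ?_
  rw [g1, mr]
  field_simp
  ring

theorem hasDerivAt_g1 (j : ℕ) (T : ℝ) {r : ℝ} (hr : 0 < r) :
    HasDerivAt (g1 j T) (g2 j T r / r) r := by
  have h1 := (hasDerivAt_logpow (j - 1) hr).const_mul (j : ℝ)
  have h2 := (((hasDerivAt_vr T r).const_mul 2).mul (hasDerivAt_mr T r)).mul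
    (hasDerivAt_logpow j hr)
  have h := (h1.sub h2).mul (hasDerivAt_GG T r)
  refine h.congr_deriv ?_
  simp only [Pi.mul_apply, Pi.sub_apply]
  have e : 2 * Real.pi / DD T = mr T r / r := by
    rw [mr]; field_simp
  rw [e, g2]
  field_simp
  ring

theorem GG_eq_ge (T r : ℝ) : GG T r = ge T r * ge T r := by
  rw [GG_eq, ge, ← Real.exp_add]
  congr 1; ring

theorem GG_pos (T r : ℝ) : 0 < GG T r := Real.exp_pos _

theorem GG_le_ge (T r : ℝ) : GG T r ≤ ge T r := by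
  rw [GG_eq_ge]
  exact mul_le_of_le_one_right (ge_pos T r).le (ge_le_one T r)

theorem poly_GG_le (T r : ℝ) : (1 + |vr T r|) ^ 4 * GG T r ≤ 128 * ge T r := by
  have h1 := poly_le_exp (vr T r)
  have h2 := GG_pos T r
  calc (1 + |vr T r|) ^ 4 * GG T r ≤ (128 * Real.exp ((vr T r) ^ 2 / 4)) * GG T r :=
        mul_le_mul_of_nonneg_right h1 h2.le
    _ = 128 * Real.exp (-(3 / 4) * (vr T r) ^ 2) := by
        rw [GG_eq, mul_assoc, ← Real.exp_add]
        congr 2; ring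
    _ ≤ 128 * ge T r := by
        refine mul_le_mul_of_nonneg_left ?_ (by norm_num)
        rw [ge]
        refine Real.exp_le_exp.2 ?_
        nlinarith [sq_nonneg (vr T r)]

theorem abs_log_pow_le {j i : ℕ} (h : i ≤ j) (r : ℝ) :
    |Real.log r ^ i| ≤ (1 + |Real.log r|) ^ j := by
  rw [abs_pow]
  have h0 := abs_nonneg (Real.log r)
  calc |Real.log r| ^ i ≤ (1 + |Real.log r|) ^ i := pow_le_pow_left₀ h0 (by linarith) i
    _ ≤ _ := pow_le_pow_right₀ (by linarith) h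

theorem abs_mr_le {T : ℝ} (hT : 3 ≤ T) (r : ℝ) :
    |mr T r| ≤ T / DD T * (1 + |vr T r|) := by
  have hD := DD_pos (show 1 < T by linarith)
  have h1 := one_le_ell hT
  have e : mr T r = T / DD T + vr T r := by
    rw [mr, vr]; field_simp; ring
  rw [e]
  refine (abs_add_le _ _).trans ?_
  rw [abs_of_pos (by positivity)]
  nlinarith [abs_nonneg (vr T r)]

theorem bd_g0 {T : ℝ} (j : ℕ) : Bd T j 1 (fun r => ((g0 j T r : ℝ) : ℂ)) := by
  refine ⟨?_, fun r hr => ?_⟩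
  · intro r hr
    have := (hasDerivAt_g0 j T (show 0 < r from hr)).continuousAt
    exact (Complex.continuous_ofReal.continuousAt.comp this).continuousWithinAt
  · rw [Complex.norm_real, Real.norm_eq_abs, g0, abs_mul, abs_of_pos (GG_pos T r), one_mul]
    exact mul_le_mul (abs_log_pow_le le_rfl r) (GG_le_ge T r) (GG_pos T r).le (by positivity)

theorem bd_g1 {T : ℝ} (hT : 3 ≤ T) (j : ℕ) :
    Bd T j (128 * (j + 2) * (T / DD T) ^ 2) (fun r => ((g1 j T r : ℝ) : ℂ)) := by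
  refine ⟨?_, fun r hr => ?_⟩
  · intro r hr
    have := (hasDerivAt_g1 j T (show 0 < r from hr)).continuousAt
    exact (Complex.continuous_ofReal.continuousAt.comp this).continuousWithinAt
  · rw [Complex.norm_real, Real.norm_eq_abs, g1, abs_mul, abs_of_pos (GG_pos T r)]
    set v := vr T r with hv
    set ℓ := T / DD T with hℓ
    have hℓ1 : 1 ≤ ℓ := one_le_ell hT
    have hm : |mr T r| ≤ ℓ * (1 + |v|) := abs_mr_le hT r
    set Lg := (1 + |Real.log r|) ^ j with hLg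
    have hLg0 : 0 ≤ Lg := by positivity
    have ha := abs_nonneg v
    have h1 : |(j : ℝ) * Real.log r ^ (j - 1)| ≤ j * Lg := by
      rw [abs_mul, Nat.abs_cast]
      exact mul_le_mul_of_nonneg_left (abs_log_pow_le (Nat.sub_le _ _) r) (Nat.cast_nonneg j)
    have h2 : |2 * v * mr T r * Real.log r ^ j| ≤ 2 * (ℓ * (1 + |v|) ^ 2) * Lg := by
      rw [abs_mul, abs_mul, abs_mul, abs_two]
      have h3 : |v| * |mr T r| ≤ ℓ * (1 + |v|) ^ 2 := by
        calc |v| * |mr T r| ≤ (1 + |v|) * (ℓ * (1 + |v|)) :=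
              mul_le_mul (by linarith) hm (abs_nonneg _) (by positivity)
          _ = _ := by ring
      calc 2 * |v| * |mr T r| * |Real.log r ^ j| = 2 * (|v| * |mr T r|) * |Real.log r ^ j| := by ring
        _ ≤ 2 * (ℓ * (1 + |v|) ^ 2) * Lg :=
            mul_le_mul (mul_le_mul_of_nonneg_left h3 (by norm_num)) (abs_log_pow_le le_rfl r)
              (abs_nonneg _) (by positivity)
    have hw1 : 1 ≤ (1 + |v|) ^ 2 := one_le_pow₀ (by linarith)
    have hw4 : (1 + |v|) ^ 4 = (1 + |v|) ^ 2 * (1 + |v|) ^ 2 := by ring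
    have h5 : |(j : ℝ) * Real.log r ^ (j - 1) - 2 * v * mr T r * Real.log r ^ j| ≤
        (j + 2) * ℓ ^ 2 * Lg * (1 + |v|) ^ 4 := by
      refine (abs_sub _ _).trans ?_
      have h6 : (j : ℝ) * Lg + 2 * (ℓ * (1 + |v|) ^ 2) * Lg ≤ (j + 2) * ℓ ^ 2 * Lg * (1 + |v|) ^ 4 := by
        have h7 : (1 : ℝ) ≤ ℓ ^ 2 * (1 + |v|) ^ 4 := by
          rw [hw4]
          exact one_le_mul_of_one_le_of_one_le (one_le_pow₀ hℓ1)
            (one_le_mul_of_one_le_of_one_le hw1 hw1)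
        have h8 : ℓ * (1 + |v|) ^ 2 ≤ ℓ ^ 2 * (1 + |v|) ^ 4 := by
          rw [hw4]
          exact mul_le_mul (by nlinarith) (by nlinarith) (by positivity) (by positivity)
        have hj0 : (0 : ℝ) ≤ j := Nat.cast_nonneg j
        calc (j : ℝ) * Lg + 2 * (ℓ * (1 + |v|) ^ 2) * Lg
            ≤ (j : ℝ) * Lg * (ℓ ^ 2 * (1 + |v|) ^ 4) + 2 * (ℓ ^ 2 * (1 + |v|) ^ 4) * Lg := by
              refine add_le_add (le_mul_of_one_le_right (by positivity) h7) ?_
              exact mul_le_mul_of_nonneg_right (by linarith) hLg0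
          _ = _ := by ring
      linarith
    have h9 := poly_GG_le T r
    calc _ ≤ ((j + 2) * ℓ ^ 2 * Lg * (1 + |v|) ^ 4) * GG T r :=
          mul_le_mul_of_nonneg_right h5 (GG_pos T r).le
      _ = ((j + 2) * ℓ ^ 2 * Lg) * ((1 + |v|) ^ 4 * GG T r) := by ring
      _ ≤ ((j + 2) * ℓ ^ 2 * Lg) * (128 * ge T r) :=
          mul_le_mul_of_nonneg_left h9 (by positivity)
      _ = _ := by ring

theorem bd_g2 {T : ℝ} (hT : 3 ≤ T) (j : ℕ) :
    Bd T j (128 * (j ^ 2 + 4 * j + 8) * (T / DD T) ^ 2) (fun r => ((g2 j T r : ℝ) : ℂ)) := by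
  refine ⟨?_, fun r hr => ?_⟩
  · have h1 : ContinuousOn (fun r => Real.log r) (Ioi 0) :=
      Real.continuousOn_log.mono fun x hx => (ne_of_gt hx : x ≠ 0)
    have h2 : Continuous (vr T) := continuous_vr T
    have h3 : Continuous (mr T) := by unfold mr; fun_prop
    have h4 : Continuous (GG T) := by unfold GG; fun_prop
    have h5 : ContinuousOn (g2 j T) (Ioi 0) := by
      unfold g2
      fun_prop
    exact Complex.continuous_ofReal.comp_continuousOn h5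
  · rw [Complex.norm_real, Real.norm_eq_abs, g2, abs_mul, abs_of_pos (GG_pos T r)]
    set v := vr T r with hv
    set m := mr T r with hm'
    set ℓ := T / DD T with hℓ
    have hℓ1 : 1 ≤ ℓ := one_le_ell hT
    have hm : |m| ≤ ℓ * (1 + |v|) := abs_mr_le hT r
    set Lg := (1 + |Real.log r|) ^ j with hLg
    have hLg0 : 0 ≤ Lg := by positivity
    have ha := abs_nonneg v
    have hj0 : (0 : ℝ) ≤ j := Nat.cast_nonneg j
    have hw1 : 1 ≤ (1 + |v|) ^ 2 := one_le_pow₀ (by linarith)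
    set w := (1 + |v|) ^ 2 with hw
    have hw4 : (1 + |v|) ^ 4 = w ^ 2 := by rw [hw]; ring
    have hvm : |v * m| ≤ ℓ * w := by
      rw [abs_mul]
      calc |v| * |m| ≤ (1 + |v|) * (ℓ * (1 + |v|)) :=
            mul_le_mul (by linarith) hm (abs_nonneg _) (by positivity)
        _ = _ := by rw [hw]; ring
    have hmm : |m ^ 2| ≤ ℓ ^ 2 * w := by
      rw [abs_pow]
      calc |m| ^ 2 ≤ (ℓ * (1 + |v|)) ^ 2 := pow_le_pow_left₀ (abs_nonneg _) hm 2
        _ = _ := by rw [hw]; ring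
    have h1 : |(j : ℝ) * (((j - 1 : ℕ) : ℝ) * Real.log r ^ (j - 1 - 1))| ≤ j ^ 2 * Lg := by
      rw [abs_mul, abs_mul, Nat.abs_cast, Nat.abs_cast]
      have h2 : (((j - 1 : ℕ) : ℝ)) ≤ j := by exact_mod_cast Nat.sub_le j 1
      have h3 : |Real.log r ^ (j - 1 - 1)| ≤ Lg := abs_log_pow_le (by omega) r
      calc (j : ℝ) * (((j - 1 : ℕ) : ℝ) * |Real.log r ^ (j - 1 - 1)|) ≤ j * (j * Lg) := by
            refine mul_le_mul_of_nonneg_left ?_ hj0
            exact mul_le_mul h2 h3 (abs_nonneg _) hj0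
        _ = _ := by ring
    have h2 : |4 * j * v * m * Real.log r ^ (j - 1)| ≤ 4 * j * (ℓ * w) * Lg := by
      have e : 4 * j * v * m * Real.log r ^ (j - 1) = (4 * j) * (v * m) * Real.log r ^ (j - 1) := by
        ring
      rw [e, abs_mul, abs_mul, abs_of_nonneg (by positivity : (0 : ℝ) ≤ 4 * j)]
      refine mul_le_mul (mul_le_mul_of_nonneg_left hvm (by positivity))
        (abs_log_pow_le (Nat.sub_le _ _) r) (abs_nonneg _) (by positivity)
    have h3 : |(-2 * (m ^ 2 + v * m) + 4 * v ^ 2 * m ^ 2) * Real.log r ^ j| ≤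
        (2 * (ℓ ^ 2 * w + ℓ * w) + 4 * (ℓ * w) ^ 2) * Lg := by
      rw [abs_mul]
      refine mul_le_mul ?_ (abs_log_pow_le le_rfl r) (abs_nonneg _) (by positivity)
      refine (abs_add_le _ _).trans ?_
      refine add_le_add ?_ ?_
      · rw [abs_mul]
        have : |(-2 : ℝ)| = 2 := by norm_num
        rw [this]
        refine mul_le_mul_of_nonneg_left ?_ (by norm_num)
        exact (abs_add_le _ _).trans (add_le_add hmm hvm)
      · have e : 4 * v ^ 2 * m ^ 2 = 4 * (v * m) ^ 2 := by ring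
        rw [e, abs_mul, abs_pow]
        have : |(4 : ℝ)| = 4 := by norm_num
        rw [this]
        exact mul_le_mul_of_nonneg_left (pow_le_pow_left₀ (abs_nonneg _) hvm 2) (by norm_num)
    have h5 : |(j : ℝ) * (((j - 1 : ℕ) : ℝ) * Real.log r ^ (j - 1 - 1)) -
        4 * j * v * m * Real.log r ^ (j - 1) +
        (-2 * (m ^ 2 + v * m) + 4 * v ^ 2 * m ^ 2) * Real.log r ^ j| ≤
        (j ^ 2 + 4 * j + 8) * ℓ ^ 2 * Lg * w ^ 2 := by
      refine (abs_add_le _ _).trans ?_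
      have h6 := abs_sub ((j : ℝ) * (((j - 1 : ℕ) : ℝ) * Real.log r ^ (j - 1 - 1)))
        (4 * j * v * m * Real.log r ^ (j - 1))
      have hℓ2 : 1 ≤ ℓ ^ 2 := one_le_pow₀ hℓ1
      have hw2 : 1 ≤ w ^ 2 := one_le_pow₀ hw1
      have a1 : 1 ≤ ℓ ^ 2 * w ^ 2 := one_le_mul_of_one_le_of_one_le hℓ2 hw2
      have a2 : ℓ * w ≤ ℓ ^ 2 * w ^ 2 := by
        refine mul_le_mul ?_ ?_ (by positivity) (by positivity)
        · nlinarith
        · nlinarith
      have a3 : ℓ ^ 2 * w ≤ ℓ ^ 2 * w ^ 2 := by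
        refine mul_le_mul_of_nonneg_left ?_ (by positivity)
        nlinarith
      have b1 : (j : ℝ) ^ 2 * Lg ≤ j ^ 2 * Lg * (ℓ ^ 2 * w ^ 2) :=
        le_mul_of_one_le_right (by positivity) a1
      have b2 : 4 * j * (ℓ * w) * Lg ≤ 4 * j * (ℓ ^ 2 * w ^ 2) * Lg :=
        mul_le_mul_of_nonneg_right (mul_le_mul_of_nonneg_left a2 (by positivity)) hLg0
      have b3 : (2 * (ℓ ^ 2 * w + ℓ * w) + 4 * (ℓ * w) ^ 2) * Lg ≤ 8 * (ℓ ^ 2 * w ^ 2) * Lg := by
        refine mul_le_mul_of_nonneg_right ?_ hLg0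
        have : (ℓ * w) ^ 2 = ℓ ^ 2 * w ^ 2 := by ring
        rw [this]; linarith
      have e : (j ^ 2 + 4 * j + 8) * ℓ ^ 2 * Lg * w ^ 2 =
          (j : ℝ) ^ 2 * Lg * (ℓ ^ 2 * w ^ 2) + 4 * j * (ℓ ^ 2 * w ^ 2) * Lg +
            8 * (ℓ ^ 2 * w ^ 2) * Lg := by ring
      rw [e]
      linarith
    have h9 := poly_GG_le T r
    rw [hw4] at h9
    calc _ ≤ ((j ^ 2 + 4 * j + 8) * ℓ ^ 2 * Lg * w ^ 2) * GG T r :=
          mul_le_mul_of_nonneg_right h5 (GG_pos T r).le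
      _ = ((j ^ 2 + 4 * j + 8) * ℓ ^ 2 * Lg) * (w ^ 2 * GG T r) := by ring
      _ ≤ ((j ^ 2 + 4 * j + 8) * ℓ ^ 2 * Lg) * (128 * ge T r) :=
          mul_le_mul_of_nonneg_left h9 (by positivity)
      _ = _ := by ring

theorem Gm_eq (j : ℕ) (T : ℝ) (s : ℂ) : Gm j T s = mellin (fun r => ((g0 j T r : ℝ) : ℂ)) s := rfl

/-- two integrations by parts -/
theorem sq_mul_Gm {T : ℝ} (hT : 3 ≤ T) (j : ℕ) {s : ℂ} (hs : 0 < s.re) :
    s ^ 2 * Gm j T s = mellin (fun r => ((g2 j T r : ℝ) : ℂ)) s := by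
  have hD := DD_pos (show 1 < T by linarith)
  have hd1 : ∀ r : ℝ, 0 < r → HasDerivAt (fun r => ((g0 j T r : ℝ) : ℂ))
      (((g1 j T r : ℝ) : ℂ) / r) r := by
    intro r hr
    have := (hasDerivAt_g0 j T hr).ofReal_comp
    push_cast at this
    exact this
  have hd2 : ∀ r : ℝ, 0 < r → HasDerivAt (fun r => ((g1 j T r : ℝ) : ℂ))
      (((g2 j T r : ℝ) : ℂ) / r) r := by
    intro r hr
    have := (hasDerivAt_g1 j T hr).ofReal_comp
    push_cast at this
    exact this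
  have h1 := mellin_theta (by linarith) (bd_g0 (T := T) j) (bd_g1 hT j) zero_le_one
    (by positivity) hd1 hs
  have h2 := mellin_theta (by linarith) (bd_g1 hT j) (bd_g2 hT j) (by positivity)
    (by positivity) hd2 hs
  rw [Gm_eq]
  linear_combination s * h1 - h2

theorem Gm_bound (j : ℕ) : ∃ C : ℝ, 0 < C ∧ ∀ T : ℝ, 3 ≤ T → ∀ s : ℂ, 1 / 2 ≤ s.re →
    s.re ≤ 3 → ‖Gm j T s‖ ≤ C * T ^ s.re * Real.log T ^ (j + 2) / (1 + s.im ^ 2) := by
  refine ⟨4 * (128 * (j ^ 2 + 4 * j + 8)) * ((1 + 4 * j) ^ j * 2 ^ j) * 5000, by positivity, ?_⟩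
  intro T hT s hs hs3
  have hT0 : 0 < T := by linarith
  have hD := DD_pos (show 1 < T by linarith)
  have hL := one_le_log hT
  have hs0 : 0 < s.re := by linarith
  have h1 := (bd_g2 hT j).norm_mellin_le hT (by positivity) hs hs3
  have h2 := sq_mul_Gm hT j hs0
  have h3 : ‖s‖ ^ 2 * ‖Gm j T s‖ = ‖mellin (fun r => ((g2 j T r : ℝ) : ℂ)) s‖ := by
    rw [← h2, norm_mul, norm_pow]
  have h4 : (1 + s.im ^ 2) / 4 ≤ ‖s‖ ^ 2 := by
    rw [← Complex.normSq_eq_norm_sq, Complex.normSq_apply]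
    nlinarith
  have h5 : 0 < 1 + s.im ^ 2 := by positivity
  rw [le_div_iff₀ h5]
  have h6 : (1 + s.im ^ 2) * ‖Gm j T s‖ ≤ 4 * (‖s‖ ^ 2 * ‖Gm j T s‖) := by
    have := mul_le_mul_of_nonneg_right h4 (norm_nonneg (Gm j T s))
    linarith
  have hℓ : T / DD T ≤ Real.log T := ell_le_log hT
  have h7 : (T / DD T) ^ 2 * (T ^ (s.re - 1) * DD T) ≤ T ^ s.re * Real.log T ^ 2 := by
    have e : (T / DD T) ^ 2 * (T ^ (s.re - 1) * DD T) = T ^ s.re * (T / DD T) := by
      rw [Real.rpow_sub hT0, Real.rpow_one]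
      field_simp
    rw [e]
    refine mul_le_mul_of_nonneg_left ?_ (by positivity)
    calc T / DD T ≤ Real.log T := hℓ
      _ ≤ Real.log T ^ 2 := by nlinarith
  calc ‖Gm j T s‖ * (1 + s.im ^ 2) = (1 + s.im ^ 2) * ‖Gm j T s‖ := mul_comm _ _
    _ ≤ 4 * (‖s‖ ^ 2 * ‖Gm j T s‖) := h6
    _ = 4 * ‖mellin (fun r => ((g2 j T r : ℝ) : ℂ)) s‖ := by rw [h3]
    _ ≤ 4 * (128 * (j ^ 2 + 4 * j + 8) * (T / DD T) ^ 2 * ((1 + 4 * j) ^ j *
        (2 * Real.log T) ^ j) * 5000 * (T ^ (s.re - 1) * DD T)) :=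
        mul_le_mul_of_nonneg_left h1 (by norm_num)
    _ = 4 * (128 * (j ^ 2 + 4 * j + 8)) * ((1 + 4 * j) ^ j * 2 ^ j) * 5000 * Real.log T ^ j *
        ((T / DD T) ^ 2 * (T ^ (s.re - 1) * DD T)) := by
        rw [mul_pow]; ring
    _ ≤ 4 * (128 * (j ^ 2 + 4 * j + 8)) * ((1 + 4 * j) ^ j * 2 ^ j) * 5000 * Real.log T ^ j *
        (T ^ s.re * Real.log T ^ 2) := mul_le_mul_of_nonneg_left h7 (by positivity)
    _ = _ := by rw [pow_add]; ring

theorem Gm_differentiableAt (j : ℕ) {T : ℝ} (hT : 3 ≤ T) {s : ℂ} (hs : 0 < s.re) :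
    DifferentiableAt ℂ (Gm j T) s := by
  have hT1 : 1 < T := by linarith
  have hB := bd_g0 (T := T) j
  have he : Gm j T = mellin (fun r => ((g0 j T r : ℝ) : ℂ)) := rfl
  rw [he]
  set δ : ℝ := s.re / 2 with hδ
  have hδ0 : 0 < δ := by rw [hδ]; linarith
  refine mellin_differentiableAt_of_isBigO_rpow (a := s.re + 1) (b := δ) ?_ ?_ (by linarith) ?_
    (by rw [hδ]; linarith)
  · exact hB.1.locallyIntegrableOn measurableSet_Ioi
  · have h1 := hB.tendsto_atTop hT1 zero_le_one ((s.re + 1 : ℝ) : ℂ)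
    have h2 : Tendsto (fun r : ℝ => r ^ (s.re + 1) * ‖((g0 j T r : ℝ) : ℂ)‖) atTop (𝓝 0) := by
      have h3 := h1.norm
      rw [norm_zero] at h3
      refine h3.congr' ?_
      filter_upwards [eventually_gt_atTop (0 : ℝ)] with r hr
      rw [norm_mul, Complex.norm_cpow_eq_rpow_re_of_pos hr, Complex.ofReal_re]
    have h4 := h2.eventually (ge_mem_nhds (show (0 : ℝ) < 1 by norm_num))
    refine Asymptotics.IsBigO.of_bound 1 ?_
    filter_upwards [h4, eventually_gt_atTop (0 : ℝ)] with r hr hr0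
    rw [one_mul, Real.norm_of_nonneg (Real.rpow_nonneg hr0.le _), Real.rpow_neg hr0.le]
    have h5 : 0 < r ^ (s.re + 1) := Real.rpow_pos_of_pos hr0 _
    rw [← one_div, le_div_iff₀ h5]
    linarith
  · refine Asymptotics.IsBigO.of_bound (2 * (1 + j / δ) ^ j) ?_
    have h1 : ∀ᶠ r : ℝ in 𝓝[>] 0, r < 1 := nhdsWithin_le_nhds (gt_mem_nhds (by norm_num))
    filter_upwards [self_mem_nhdsWithin, h1] with r hr hr1
    have hr0 : (0 : ℝ) < r := hr
    have h2 := hB.norm_le_rpow zero_le_one hδ0 (s := 0) hr0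
    rw [Complex.cpow_zero, one_mul, Complex.zero_re, zero_add, zero_sub, one_mul] at h2
    have h3 : r ^ δ * ge T r + r ^ (-δ) * ge T r ≤ 2 * r ^ (-δ) := by
      have e1 : r ^ δ ≤ r ^ (-δ) := Real.rpow_le_rpow_of_exponent_ge hr0 hr1.le (by linarith)
      have e2 : 0 < r ^ (-δ) := Real.rpow_pos_of_pos hr0 _
      have e3 := ge_le_one T r
      have e4 := (ge_pos T r).le
      have e5 : 0 ≤ r ^ δ := Real.rpow_nonneg hr0.le _
      nlinarith
    rw [Real.norm_of_nonneg (Real.rpow_nonneg hr0.le _)]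
    calc ‖((g0 j T r : ℝ) : ℂ)‖ ≤ (1 + j / δ) ^ j * (r ^ δ * ge T r + r ^ (-δ) * ge T r) := h2
      _ ≤ (1 + j / δ) ^ j * (2 * r ^ (-δ)) := mul_le_mul_of_nonneg_left h3 (by positivity)
      _ = _ := by ring

theorem Gm_integrable (j : ℕ) {T σ : ℝ} (hT : 3 ≤ T) (hσ : 0 < σ) :
    Integrable (fun y : ℝ => Gm j T (σ + y * Complex.I)) := by
  have hre : ∀ y : ℝ, ((σ : ℂ) + y * Complex.I).re = σ := fun y => by simp
  have him : ∀ y : ℝ, ((σ : ℂ) + y * Complex.I).im = y := fun y => by simp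
  have hcont : Continuous (fun y : ℝ => Gm j T (σ + y * Complex.I)) := by
    rw [continuous_iff_continuousAt]
    intro y
    have h1 := (Gm_differentiableAt j hT (s := (σ : ℂ) + y * Complex.I)
      (by rw [hre]; exact hσ)).continuousAt
    exact ContinuousAt.comp (f := fun y : ℝ => (σ : ℂ) + y * Complex.I) h1
      (by fun_prop)
  set A : ℝ := ∫ r in Ioi (0 : ℝ), ‖(r : ℂ) ^ ((σ : ℂ) - 1) • ((g2 j T r : ℝ) : ℂ)‖ with hA
  have hA0 : 0 ≤ A := integral_nonneg fun _ => norm_nonneg _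
  set k : ℝ := min 1 (σ ^ 2) with hk
  have hk0 : 0 < k := by rw [hk]; positivity
  have hbound : ∀ y : ℝ, ‖Gm j T (σ + y * Complex.I)‖ ≤ A / k * (1 + y ^ 2)⁻¹ := by
    intro y
    set s : ℂ := (σ : ℂ) + y * Complex.I with hs
    have hsre : 0 < s.re := by rw [hs, hre]; exact hσ
    have h1 : ‖mellin (fun r => ((g2 j T r : ℝ) : ℂ)) s‖ ≤ A := by
      rw [mellin, hA]
      refine (norm_integral_le_integral_norm _).trans (le_of_eq ?_)
      refine setIntegral_congr_fun measurableSet_Ioi fun r hr => ?_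
      have hr0 : (0 : ℝ) < r := hr
      simp only [smul_eq_mul]
      rw [norm_mul, norm_mul, Complex.norm_cpow_eq_rpow_re_of_pos hr0,
        Complex.norm_cpow_eq_rpow_re_of_pos hr0]
      congr 2
      rw [Complex.sub_re, Complex.sub_re, hs, hre, Complex.ofReal_re]
    have h2 := sq_mul_Gm hT j hsre
    have h3 : ‖s‖ ^ 2 * ‖Gm j T s‖ ≤ A := by
      rw [← norm_pow, ← norm_mul, h2]; exact h1
    have h4 : k * (1 + y ^ 2) ≤ ‖s‖ ^ 2 := by
      rw [← Complex.normSq_eq_norm_sq, Complex.normSq_apply, hs, hre, him]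
      have e1 : k ≤ 1 := min_le_left _ _
      have e2 : k ≤ σ ^ 2 := min_le_right _ _
      nlinarith [sq_nonneg y]
    have h5 : 0 < 1 + y ^ 2 := by positivity
    rw [← div_eq_mul_inv, div_div, le_div_iff₀ (by positivity)]
    calc ‖Gm j T s‖ * (k * (1 + y ^ 2)) ≤ ‖Gm j T s‖ * ‖s‖ ^ 2 :=
          mul_le_mul_of_nonneg_left h4 (norm_nonneg _)
      _ = ‖s‖ ^ 2 * ‖Gm j T s‖ := mul_comm _ _
      _ ≤ A := h3
  exact Integrable.mono' (integrable_inv_one_add_sq.const_mul (A / k))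
    hcont.aestronglyMeasurable (Eventually.of_forall hbound)

theorem Gm_inversion (j : ℕ) {T σ x : ℝ} (hT : 3 ≤ T) (hσ : 0 < σ) (hx : 0 < x) :
    ((Real.log x ^ j * GG T x : ℝ) : ℂ) = ((2 * Real.pi : ℝ) : ℂ)⁻¹ *
      ∫ y : ℝ, (x : ℂ) ^ (-((σ : ℂ) + y * Complex.I)) * Gm j T (σ + y * Complex.I) := by
  have hB := bd_g0 (T := T) j
  have h1 : MellinConvergent (fun r => ((g0 j T r : ℝ) : ℂ)) (σ : ℂ) :=
    hB.mellinConvergent (by linarith) zero_le_one (by simpa using hσ)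
  have h2 : Complex.VerticalIntegrable (mellin fun r => ((g0 j T r : ℝ) : ℂ)) σ :=
    Gm_integrable j hT hσ
  have h3 : ContinuousAt (fun r => ((g0 j T r : ℝ) : ℂ)) x :=
    (hB.1 x hx).continuousAt (Ioi_mem_nhds hx)
  have h4 := mellinInv_mellin_eq σ (fun r => ((g0 j T r : ℝ) : ℂ)) hx h1 h2 h3
  rw [mellinInv] at h4
  have h5 : ((g0 j T x : ℝ) : ℂ) = ((Real.log x ^ j * GG T x : ℝ) : ℂ) := rfl
  rw [h5] at h4
  rw [← h4]
  simp only [smul_eq_mul, Complex.real_smul]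
  push_cast
  rw [one_div]
  rfl

end Pool.Agent.Lib.MP_6bc78b_nt.MS.P3.H6
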