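import Pool.Agent.Lib.MP_6bc78b_nt.MS.Defs

set_option autoImplicit false

open Filter Topology MeasureTheory Set

namespace Pool.Agent.Lib.MP_6bc78b_nt.MS.P3.H6

/-- the centred and scaled variable -/
noncomputable def vr (T r : ℝ) : ℝ := (2 * Real.pi * r - T) / DD T

/-- Gaussian with half of the exponent -/
noncomputable def ge (T r : ℝ) : ℝ := Real.exp (-(vr T r) ^ 2 / 2)

theorem GG_eq (T r : ℝ) : GG T r = Real.exp (-(vr T r) ^ 2) := by
  rw [GG, vr, div_pow, neg_div]

theorem one_le_log {T : ℝ} (hT : 3 ≤ T) : 1 ≤ Real.log T := by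
  rw [Real.le_log_iff_exp_le (by linarith)]
  have := Real.exp_one_lt_d9
  linarith

theorem DD_pos {T : ℝ} (hT : 1 < T) : 0 < DD T := by
  have : 0 < Real.log T := Real.log_pos hT
  rw [DD]
  positivity

/-- `ℓ = T / D` -/
theorem T_div_DD {T : ℝ} (hT : 1 < T) : T / DD T = Real.log T ^ (2 / 3 : ℝ) := by
  have h0 : 0 < Real.log T := Real.log_pos hT
  have h1 : 0 < Real.log T ^ (2 / 3 : ℝ) := by positivity
  rw [DD]
  field_simp

theorem one_le_ell {T : ℝ} (hT : 3 ≤ T) : 1 ≤ T / DD T := by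
  rw [T_div_DD (by linarith)]
  exact Real.one_le_rpow (one_le_log hT) (by norm_num)

theorem ell_le_log {T : ℝ} (hT : 3 ≤ T) : T / DD T ≤ Real.log T := by
  rw [T_div_DD (by linarith)]
  calc Real.log T ^ (2 / 3 : ℝ) ≤ Real.log T ^ (1 : ℝ) :=
        Real.rpow_le_rpow_of_exponent_le (one_le_log hT) (by norm_num)
    _ = _ := Real.rpow_one _

theorem ge_pos (T r : ℝ) : 0 < ge T r := Real.exp_pos _

theorem ge_le_one (T r : ℝ) : ge T r ≤ 1 := by
  rw [ge, Real.exp_le_one_iff]
  have := sq_nonneg (vr T r)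
  linarith

theorem continuous_vr (T : ℝ) : Continuous (vr T) := by
  unfold vr
  fun_prop

theorem continuous_ge (T : ℝ) : Continuous (ge T) := by
  unfold ge
  have := continuous_vr T
  fun_prop

/-- pointwise comparison with a centred Gaussian -/
theorem ge_le_gauss {T : ℝ} (hT : 1 < T) (r : ℝ) :
    ge T r ≤ Real.exp ((T / DD T) ^ 2 / 2) * Real.exp (-(Real.pi ^ 2 / DD T ^ 2) * r ^ 2) := by
  have hD := DD_pos hT
  rw [ge, ← Real.exp_add]
  refine Real.exp_le_exp.2 ?_
  rw [vr]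
  have h1 : (2 * Real.pi * r) ^ 2 / 2 - T ^ 2 ≤ (2 * Real.pi * r - T) ^ 2 := by
    nlinarith [sq_nonneg (2 * Real.pi * r - 2 * T)]
  have h2 : ((2 * Real.pi * r) ^ 2 / 2 - T ^ 2) / DD T ^ 2 ≤ (2 * Real.pi * r - T) ^ 2 / DD T ^ 2 :=
    div_le_div_of_nonneg_right h1 (by positivity)
  rw [div_pow, div_pow]
  have e1 : ((2 * Real.pi * r) ^ 2 / 2 - T ^ 2) / DD T ^ 2
      = 2 * (Real.pi ^ 2 / DD T ^ 2 * r ^ 2) - T ^ 2 / DD T ^ 2 := by
    ring
  rw [e1] at h2
  linarith

theorem integrableOn_rpow_ge {T : ℝ} (hT : 1 < T) {p : ℝ} (hp : -1 < p) :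
    IntegrableOn (fun r : ℝ => r ^ p * ge T r) (Ioi 0) := by
  have hD := DD_pos hT
  have h1 := (integrableOn_rpow_mul_exp_neg_mul_sq (b := Real.pi ^ 2 / DD T ^ 2)
    (by positivity) hp).const_mul (Real.exp ((T / DD T) ^ 2 / 2))
  refine Integrable.mono' h1 ?_ ?_
  · refine ContinuousOn.aestronglyMeasurable ?_ measurableSet_Ioi
    refine ContinuousOn.mul ?_ (continuous_ge T).continuousOn
    intro r hr
    exact (Real.continuousAt_rpow_const r p (Or.inl (ne_of_gt hr))).continuousWithinAt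
  · refine (ae_restrict_mem measurableSet_Ioi).mono fun r hr => ?_
    have hr0 : (0 : ℝ) < r := hr
    have h2 := ge_le_gauss hT r
    have h3 : 0 < r ^ p := Real.rpow_pos_of_pos hr0 p
    rw [Real.norm_eq_abs, abs_of_nonneg (mul_nonneg h3.le (ge_pos T r).le)]
    calc r ^ p * ge T r ≤ r ^ p * (Real.exp ((T / DD T) ^ 2 / 2) *
          Real.exp (-(Real.pi ^ 2 / DD T ^ 2) * r ^ 2)) := mul_le_mul_of_nonneg_left h2 h3.le
      _ = _ := by ring

theorem integral_gauss_vr {T : ℝ} (hT : 1 < T) {b : ℝ} (hb : 0 < b) :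
    Integrable (fun r : ℝ => Real.exp (-b * (vr T r) ^ 2)) ∧
    ∫ r : ℝ, Real.exp (-b * (vr T r) ^ 2) = DD T / (2 * Real.pi) * Real.sqrt (Real.pi / b) := by
  have hD := DD_pos hT
  have hpi := Real.pi_pos
  set c : ℝ := 2 * Real.pi / DD T with hc
  have hc0 : 0 < c := by positivity
  set d : ℝ := T / (2 * Real.pi) with hd
  have e : ∀ r, vr T r = c * (r - d) := by
    intro r
    rw [vr, hc, hd]
    field_simp
  have hg := integrable_exp_neg_mul_sq hb
  have h1 : Integrable (fun r : ℝ => Real.exp (-b * (c * r) ^ 2)) := hg.comp_mul_left' hc0.ne'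
  have h2 : Integrable (fun r : ℝ => Real.exp (-b * (c * (r - d)) ^ 2)) := h1.comp_sub_right d
  have hfun : (fun r : ℝ => Real.exp (-b * (vr T r) ^ 2))
      = fun r : ℝ => Real.exp (-b * (c * (r - d)) ^ 2) := by
    funext r; rw [e]
  rw [hfun]
  refine ⟨h2, ?_⟩
  rw [integral_sub_right_eq_self (fun r : ℝ => Real.exp (-b * (c * r) ^ 2)) d]
  rw [Measure.integral_comp_mul_left (fun r : ℝ => Real.exp (-b * r ^ 2)) c, integral_gaussian,
    abs_of_pos (inv_pos.2 hc0), smul_eq_mul]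
  congr 1
  rw [hc, inv_div]

theorem poly_le_exp (w : ℝ) : (1 + |w|) ^ 4 ≤ 128 * Real.exp (w ^ 2 / 4) := by
  have h1 : (1 + |w|) ^ 2 ≤ 2 * (1 + w ^ 2) := by
    nlinarith [sq_nonneg (1 - |w|), sq_abs w]
  have h2 : (1 + |w|) ^ 4 ≤ (2 * (1 + w ^ 2)) ^ 2 := by
    calc (1 + |w|) ^ 4 = ((1 + |w|) ^ 2) ^ 2 := by ring
      _ ≤ _ := pow_le_pow_left₀ (by positivity) h1 2
  have h3 := Real.quadratic_le_exp_of_nonneg (x := w ^ 2 / 4) (by positivity)
  nlinarith [sq_nonneg (w ^ 2), sq_nonneg w]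

/-- the master bound: uniform in `T` -/
theorem integral_rpow_ge_le {T : ℝ} (hT : 3 ≤ T) {p : ℝ} (hp : -1 < p) (hp4 : p ≤ 4) :
    IntegrableOn (fun r : ℝ => (r / T) ^ p * ge T r) (Ioi 0) ∧
    ∫ r in Ioi (0 : ℝ), (r / T) ^ p * ge T r ≤ (8 / (p + 1) + 2000) * DD T := by
  have hT0 : 0 < T := by linarith
  have hT1 : 1 < T := by linarith
  have hD := DD_pos hT1
  have hpi := Real.pi_pos
  have hpi3 := Real.pi_gt_three
  have hpi4 := Real.pi_lt_d2
  have hint : IntegrableOn (fun r : ℝ => (r / T) ^ p * ge T r) (Ioi 0) := by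
    have h1 : IntegrableOn (fun r : ℝ => T ^ (-p) * (r ^ p * ge T r)) (Ioi 0) :=
      (integrableOn_rpow_ge hT1 hp).const_mul (T ^ (-p))
    refine IntegrableOn.congr_fun h1 ?_ measurableSet_Ioi
    intro r hr
    have hr0 : (0 : ℝ) < r := hr
    simp only
    rw [Real.div_rpow hr0.le hT0.le, Real.rpow_neg hT0.le]
    ring
  refine ⟨hint, ?_⟩
  set ℓ : ℝ := T / DD T with hℓ
  have hℓ1 : 1 ≤ ℓ := one_le_ell hT
  have hDℓ : DD T * ℓ = T := by rw [hℓ]; field_simp
  set b : ℝ := T / (4 * Real.pi) with hb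
  have hb0 : 0 < b := by positivity
  obtain ⟨hg1, hg2⟩ := integral_gauss_vr hT1 (b := 1 / 4) (by norm_num)
  set M : ℝ → ℝ := fun r => (Ioc 0 b).indicator (fun r => (r / T) ^ p * Real.exp (-ℓ ^ 2 / 8)) r +
    1700 * Real.exp (-(1 / 4) * (vr T r) ^ 2) with hM
  have hpint : IntegrableOn (fun r : ℝ => (r / T) ^ p * Real.exp (-ℓ ^ 2 / 8)) (Ioc 0 b) := by
    have h1 : IntegrableOn (fun r : ℝ => r ^ p) (Ioc 0 b) :=
      (intervalIntegrable_iff_integrableOn_Ioc_of_le hb0.le).1
        (intervalIntegral.intervalIntegrable_rpow' hp)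
    have h2 : IntegrableOn (fun r : ℝ => (T ^ (-p) * Real.exp (-ℓ ^ 2 / 8)) * r ^ p) (Ioc 0 b) :=
      h1.const_mul (T ^ (-p) * Real.exp (-ℓ ^ 2 / 8))
    refine IntegrableOn.congr_fun h2 ?_ measurableSet_Ioc
    intro r hr
    have hr0 : (0 : ℝ) < r := hr.1
    simp only
    rw [Real.div_rpow hr0.le hT0.le, Real.rpow_neg hT0.le]
    ring
  have hM1 : Integrable ((Ioc 0 b).indicator (fun r => (r / T) ^ p * Real.exp (-ℓ ^ 2 / 8))) :=
    (integrable_indicator_iff measurableSet_Ioc).2 hpint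
  have hMint : IntegrableOn M (Ioi 0) := (hM1.add (hg1.const_mul 1700)).integrableOn
  have hle : ∀ r ∈ Ioi (0 : ℝ), (r / T) ^ p * ge T r ≤ M r := by
    intro r hr
    have hr0 : (0 : ℝ) < r := hr
    have hrT : 0 < r / T := by positivity
    simp only [hM]
    by_cases hrb : r ≤ b
    · rw [indicator_of_mem (show r ∈ Ioc 0 b from ⟨hr0, hrb⟩)]
      have h1 : ge T r ≤ Real.exp (-ℓ ^ 2 / 8) := by
        rw [ge]
        refine Real.exp_le_exp.2 ?_
        have h2 : vr T r ≤ -(ℓ / 2) := by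
          rw [vr, hℓ, div_le_iff₀ hD]
          have : 2 * Real.pi * r ≤ T / 2 := by
            calc 2 * Real.pi * r ≤ 2 * Real.pi * b := mul_le_mul_of_nonneg_left hrb (by positivity)
              _ = T / 2 := by rw [hb]; field_simp; ring
          have e1 : -(T / DD T / 2) * DD T = -(T / 2) := by field_simp
          rw [e1]; linarith
        nlinarith
      have h2 := mul_le_mul_of_nonneg_left h1 (Real.rpow_nonneg hrT.le p)
      have h3 := Real.exp_pos (-(1 / 4) * (vr T r) ^ 2)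
      linarith
    · rw [indicator_of_notMem (fun h => hrb h.2), zero_add]
      rw [not_le] at hrb
      have hw : (r / T) ^ p ≤ 4 * Real.pi * (1 + |vr T r|) ^ 4 := by
        have h1w : 1 ≤ 1 + |vr T r| := by linarith [abs_nonneg (vr T r)]
        have h1w4 : 1 ≤ (1 + |vr T r|) ^ 4 := one_le_pow₀ h1w
        rcases le_total p 0 with hp0 | hp0
        · have h2 : 1 / (4 * Real.pi) ≤ r / T := by
            rw [div_le_div_iff₀ (by positivity) hT0]
            rw [hb, div_lt_iff₀ (by positivity)] at hrb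
            linarith
          calc (r / T) ^ p ≤ (1 / (4 * Real.pi)) ^ p :=
                Real.rpow_le_rpow_of_nonpos (by positivity) h2 hp0
            _ = (4 * Real.pi) ^ (-p) := by
                rw [one_div, Real.inv_rpow (by positivity), Real.rpow_neg (by positivity)]
            _ ≤ (4 * Real.pi) ^ (1 : ℝ) :=
                Real.rpow_le_rpow_of_exponent_le (by linarith) (by linarith)
            _ = 4 * Real.pi * 1 := by rw [Real.rpow_one, mul_one]
            _ ≤ _ := mul_le_mul_of_nonneg_left h1w4 (by positivity)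
        · have h2 : r / T ≤ 1 + |vr T r| := by
            have e1 : 2 * Real.pi * r = T + vr T r * DD T := by
              rw [vr]; field_simp; ring
            have h3 : vr T r * DD T ≤ |vr T r| * T := by
              have h4 : DD T ≤ T := by
                calc DD T = DD T * 1 := (mul_one _).symm
                  _ ≤ DD T * ℓ := mul_le_mul_of_nonneg_left hℓ1 hD.le
                  _ = T := hDℓ
              calc vr T r * DD T ≤ |vr T r| * DD T :=
                    mul_le_mul_of_nonneg_right (le_abs_self _) hD.le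
                _ ≤ _ := mul_le_mul_of_nonneg_left h4 (abs_nonneg _)
            rw [div_le_iff₀ hT0]
            have h5 : r ≤ 2 * Real.pi * r := by nlinarith
            nlinarith
          calc (r / T) ^ p ≤ (1 + |vr T r|) ^ p := Real.rpow_le_rpow hrT.le h2 hp0
            _ ≤ (1 + |vr T r|) ^ (4 : ℝ) := Real.rpow_le_rpow_of_exponent_le h1w hp4
            _ = 1 * (1 + |vr T r|) ^ 4 := by rw [one_mul]; norm_cast
            _ ≤ _ := mul_le_mul_of_nonneg_right (by linarith) (by positivity)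
      have hp2 := poly_le_exp (vr T r)
      calc (r / T) ^ p * ge T r ≤ (4 * Real.pi * (1 + |vr T r|) ^ 4) * ge T r :=
            mul_le_mul_of_nonneg_right hw (ge_pos T r).le
        _ ≤ (4 * Real.pi * (128 * Real.exp ((vr T r) ^ 2 / 4))) * ge T r := by
            refine mul_le_mul_of_nonneg_right ?_ (ge_pos T r).le
            exact mul_le_mul_of_nonneg_left hp2 (by positivity)
        _ = 512 * Real.pi * Real.exp (-(1 / 4) * (vr T r) ^ 2) := by
            have e2 : Real.exp ((vr T r) ^ 2 / 4) * ge T r = Real.exp (-(1 / 4) * (vr T r) ^ 2) := by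
              rw [ge, ← Real.exp_add]; congr 1; ring
            rw [← e2]; ring
        _ ≤ 1700 * Real.exp (-(1 / 4) * (vr T r) ^ 2) :=
            mul_le_mul_of_nonneg_right (by linarith) (Real.exp_pos _).le
  have h1 := setIntegral_mono_on hint hMint measurableSet_Ioi hle
  refine h1.trans ?_
  have hsplit : ∫ r in Ioi (0 : ℝ), M r =
      (∫ r in Ioi (0 : ℝ), (Ioc 0 b).indicator (fun r => (r / T) ^ p * Real.exp (-ℓ ^ 2 / 8)) r) +
      ∫ r in Ioi (0 : ℝ), 1700 * Real.exp (-(1 / 4) * (vr T r) ^ 2) :=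
    integral_add hM1.integrableOn (hg1.const_mul 1700).integrableOn
  rw [hsplit]
  have hA : ∫ r in Ioi (0 : ℝ),
      (Ioc 0 b).indicator (fun r => (r / T) ^ p * Real.exp (-ℓ ^ 2 / 8)) r ≤
      8 / (p + 1) * DD T := by
    rw [setIntegral_indicator measurableSet_Ioc]
    have hset : Ioi (0 : ℝ) ∩ Ioc 0 b = Ioc 0 b := by
      ext r; simp only [mem_inter_iff, mem_Ioi, mem_Ioc]; tauto
    rw [hset]
    have e1 : ∫ r in Ioc 0 b, (r / T) ^ p * Real.exp (-ℓ ^ 2 / 8) =
        (T ^ (-p) * Real.exp (-ℓ ^ 2 / 8)) * ∫ r in Ioc 0 b, r ^ p := by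
      rw [← integral_const_mul]
      refine setIntegral_congr_fun measurableSet_Ioc fun r hr => ?_
      have hr0 : (0 : ℝ) < r := hr.1
      rw [Real.div_rpow hr0.le hT0.le, Real.rpow_neg hT0.le]
      ring
    rw [e1, ← intervalIntegral.integral_of_le hb0.le, integral_rpow (Or.inl hp),
      Real.zero_rpow (by linarith), sub_zero]
    have e2 : T ^ (-p) * b ^ (p + 1) ≤ T := by
      have hbT : b ≤ T := by
        rw [hb]
        exact div_le_self hT0.le (by linarith)
      calc T ^ (-p) * b ^ (p + 1) ≤ T ^ (-p) * T ^ (p + 1) := by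
            refine mul_le_mul_of_nonneg_left ?_ (by positivity)
            exact Real.rpow_le_rpow hb0.le hbT (by linarith)
        _ = T := by
            rw [← Real.rpow_add hT0]
            have : -p + (p + 1) = 1 := by ring
            rw [this, Real.rpow_one]
    have e3 : Real.exp (-ℓ ^ 2 / 8) * T ≤ 8 * DD T := by
      have h2 : 1 + ℓ ^ 2 / 8 ≤ Real.exp (ℓ ^ 2 / 8) := by
        have := Real.add_one_le_exp (ℓ ^ 2 / 8)
        linarith
      have h3 : Real.exp (-ℓ ^ 2 / 8) * Real.exp (ℓ ^ 2 / 8) = 1 := by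
        rw [← Real.exp_add]
        have : -ℓ ^ 2 / 8 + ℓ ^ 2 / 8 = 0 := by ring
        rw [this, Real.exp_zero]
      have h4 : 0 < Real.exp (-ℓ ^ 2 / 8) := Real.exp_pos _
      have h5 : Real.exp (-ℓ ^ 2 / 8) * ℓ ≤ 8 := by
        have h6 : Real.exp (-ℓ ^ 2 / 8) * (ℓ / 8) ≤ 1 := by
          calc Real.exp (-ℓ ^ 2 / 8) * (ℓ / 8) ≤ Real.exp (-ℓ ^ 2 / 8) * Real.exp (ℓ ^ 2 / 8) := by
                refine mul_le_mul_of_nonneg_left ?_ h4.le
                nlinarith
            _ = 1 := h3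
        linarith
      calc Real.exp (-ℓ ^ 2 / 8) * T = Real.exp (-ℓ ^ 2 / 8) * (DD T * ℓ) := by rw [hDℓ]
        _ = (Real.exp (-ℓ ^ 2 / 8) * ℓ) * DD T := by ring
        _ ≤ 8 * DD T := mul_le_mul_of_nonneg_right h5 hD.le
    have hp1 : 0 < p + 1 := by linarith
    calc T ^ (-p) * Real.exp (-ℓ ^ 2 / 8) * (b ^ (p + 1) / (p + 1))
        = Real.exp (-ℓ ^ 2 / 8) * (T ^ (-p) * b ^ (p + 1)) / (p + 1) := by ring
      _ ≤ Real.exp (-ℓ ^ 2 / 8) * T / (p + 1) := by
          refine div_le_div_of_nonneg_right ?_ hp1.le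
          exact mul_le_mul_of_nonneg_left e2 (Real.exp_pos _).le
      _ ≤ 8 * DD T / (p + 1) := div_le_div_of_nonneg_right e3 hp1.le
      _ = _ := by ring
  have hB : ∫ r in Ioi (0 : ℝ), 1700 * Real.exp (-(1 / 4) * (vr T r) ^ 2) ≤ 2000 * DD T := by
    have h2 : ∫ r in Ioi (0 : ℝ), 1700 * Real.exp (-(1 / 4) * (vr T r) ^ 2) ≤
        ∫ r : ℝ, 1700 * Real.exp (-(1 / 4) * (vr T r) ^ 2) :=
      setIntegral_le_integral (hg1.const_mul 1700) (Eventually.of_forall fun r => by positivity)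
    refine h2.trans ?_
    rw [integral_const_mul, hg2]
    have h3 : Real.sqrt (Real.pi / (1 / 4)) ≤ 2 * Real.pi * (20 / 17) := by
      rw [Real.sqrt_le_left (by positivity)]
      nlinarith
    calc 1700 * (DD T / (2 * Real.pi) * Real.sqrt (Real.pi / (1 / 4)))
        ≤ 1700 * (DD T / (2 * Real.pi) * (2 * Real.pi * (20 / 17))) := by
          refine mul_le_mul_of_nonneg_left ?_ (by norm_num)
          exact mul_le_mul_of_nonneg_left h3 (by positivity)
      _ = 2000 * DD T := by field_simp; ring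
  calc _ ≤ 8 / (p + 1) * DD T + 2000 * DD T := add_le_add hA hB
    _ = _ := by ring

end Pool.Agent.Lib.MP_6bc78b_nt.MS.P3.H6
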