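import Pool.Agent.Lib.MP_6bc78b_nt.MS.P3.H6.GmA

set_option autoImplicit false

open Filter Topology MeasureTheory Set

namespace Pool.Agent.Lib.MP_6bc78b_nt.MS.P3.H6

/-- powers of the logarithm against small powers -/
theorem log_pow_le (j : ℕ) {δ : ℝ} (hδ : 0 < δ) {x : ℝ} (hx : 0 < x) :
    (1 + |Real.log x|) ^ j ≤ (1 + j / δ) ^ j * (x ^ δ + x ^ (-δ)) := by
  have h0 : Real.exp (δ * |Real.log x|) ≤ x ^ δ + x ^ (-δ) := by
    rcases le_total 0 (Real.log x) with h | h
    · rw [abs_of_nonneg h, Real.rpow_def_of_pos hx, Real.rpow_def_of_pos hx, mul_comm δ]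
      have := Real.exp_pos (Real.log x * -δ)
      linarith
    · rw [abs_of_nonpos h, Real.rpow_def_of_pos hx, Real.rpow_def_of_pos hx]
      have e : δ * -Real.log x = Real.log x * -δ := by ring
      rw [e]
      have := Real.exp_pos (Real.log x * δ)
      linarith
  refine le_trans ?_ (mul_le_mul_of_nonneg_left h0 (by positivity))
  rcases Nat.eq_zero_or_pos j with rfl | hj
  · simp only [pow_zero, one_mul]
    exact Real.one_le_exp (by positivity)
  · have hj' : (0 : ℝ) < j := by exact_mod_cast hj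
    set a := |Real.log x| with ha
    have ha0 : 0 ≤ a := abs_nonneg _
    have h1 : 1 + a ≤ (1 + j / δ) * (1 + δ * a / j) := by
      have e : (1 + j / δ) * (1 + δ * a / j) = 1 + a + j / δ + δ * a / j := by
        field_simp
        ring
      rw [e]
      have : 0 ≤ j / δ := by positivity
      have : 0 ≤ δ * a / j := by positivity
      linarith
    have h2 : 1 + δ * a / j ≤ Real.exp (δ * a / j) := by
      have := Real.add_one_le_exp (δ * a / j)
      linarith
    calc (1 + a) ^ j ≤ ((1 + j / δ) * (1 + δ * a / j)) ^ j :=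
          pow_le_pow_left₀ (by positivity) h1 j
      _ = (1 + j / δ) ^ j * (1 + δ * a / j) ^ j := by rw [mul_pow]
      _ ≤ (1 + j / δ) ^ j * Real.exp (δ * a / j) ^ j := by
          refine mul_le_mul_of_nonneg_left ?_ (by positivity)
          exact pow_le_pow_left₀ (by positivity) h2 j
      _ = (1 + j / δ) ^ j * Real.exp (δ * a) := by
          rw [← Real.exp_nat_mul]
          congr 2
          field_simp

/-- the class of functions -/
def Bd (T : ℝ) (j : ℕ) (A : ℝ) (F : ℝ → ℂ) : Prop :=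
  ContinuousOn F (Ioi 0) ∧ ∀ r : ℝ, 0 < r → ‖F r‖ ≤ A * (1 + |Real.log r|) ^ j * ge T r

theorem Bd.norm_le_rpow {T : ℝ} {j : ℕ} {A : ℝ} {F : ℝ → ℂ} (h : Bd T j A F) (hA : 0 ≤ A)
    {δ : ℝ} (hδ : 0 < δ) {s : ℂ} {r : ℝ} (hr : 0 < r) :
    ‖(r : ℂ) ^ s * F r‖ ≤ A * (1 + j / δ) ^ j *
      (r ^ (s.re + δ) * ge T r + r ^ (s.re - δ) * ge T r) := by
  rw [norm_mul, Complex.norm_cpow_eq_rpow_re_of_pos hr]
  have h1 := h.2 r hr
  have h2 := log_pow_le j hδ hr
  have h3 := ge_pos T r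
  have h4 : 0 < r ^ s.re := Real.rpow_pos_of_pos hr _
  calc r ^ s.re * ‖F r‖ ≤ r ^ s.re * (A * (1 + |Real.log r|) ^ j * ge T r) :=
        mul_le_mul_of_nonneg_left h1 h4.le
    _ ≤ r ^ s.re * (A * ((1 + j / δ) ^ j * (r ^ δ + r ^ (-δ))) * ge T r) := by
        refine mul_le_mul_of_nonneg_left ?_ h4.le
        refine mul_le_mul_of_nonneg_right ?_ h3.le
        exact mul_le_mul_of_nonneg_left h2 hA
    _ = _ := by
        rw [Real.rpow_add hr, sub_eq_add_neg, Real.rpow_add hr]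
        ring

theorem Bd.integrableOn {T : ℝ} (hT : 1 < T) {j : ℕ} {A : ℝ} {F : ℝ → ℂ} (h : Bd T j A F)
    (hA : 0 ≤ A) {s : ℂ} (hs : -1 < s.re) :
    IntegrableOn (fun r : ℝ => (r : ℂ) ^ s * F r) (Ioi 0) := by
  set δ : ℝ := (s.re + 1) / 2 with hδ
  have hδ0 : 0 < δ := by rw [hδ]; linarith
  have h1 : IntegrableOn (fun r : ℝ => r ^ (s.re + δ) * ge T r) (Ioi 0) :=
    integrableOn_rpow_ge hT (by linarith)
  have h2 : IntegrableOn (fun r : ℝ => r ^ (s.re - δ) * ge T r) (Ioi 0) :=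
    integrableOn_rpow_ge hT (by rw [hδ]; linarith)
  have h3 : IntegrableOn (fun r : ℝ => A * (1 + j / δ) ^ j *
      (r ^ (s.re + δ) * ge T r + r ^ (s.re - δ) * ge T r)) (Ioi 0) :=
    (Integrable.add h1 h2).const_mul _
  refine Integrable.mono' h3 ?_ ?_
  · refine ContinuousOn.aestronglyMeasurable ?_ measurableSet_Ioi
    refine ContinuousOn.mul ?_ h.1
    intro r hr
    have hr0 : (0 : ℝ) < r := hr
    refine (ContinuousAt.comp (f := fun r : ℝ => (r : ℂ)) (g := fun z : ℂ => z ^ s) ?_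
      Complex.continuous_ofReal.continuousAt).continuousWithinAt
    exact continuousAt_cpow_const (Or.inl (by simpa using hr0))
  · refine (ae_restrict_mem measurableSet_Ioi).mono fun r hr => ?_
    exact h.norm_le_rpow hA hδ0 hr

theorem Bd.mellinConvergent {T : ℝ} (hT : 1 < T) {j : ℕ} {A : ℝ} {F : ℝ → ℂ} (h : Bd T j A F)
    (hA : 0 ≤ A) {s : ℂ} (hs : 0 < s.re) : MellinConvergent F s := by
  have := h.integrableOn hT hA (s := s - 1) (by simpa using hs)
  exact this

theorem tendsto_rpow_ge_zero {T p : ℝ} (hp : 0 < p) :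
    Tendsto (fun r : ℝ => r ^ p * ge T r) (𝓝[>] 0) (𝓝 0) := by
  have h1 : Tendsto (fun r : ℝ => r ^ p) (𝓝[>] 0) (𝓝 0) := by
    have h2 : ContinuousAt (fun r : ℝ => r ^ p) 0 := Real.continuousAt_rpow_const 0 p (Or.inr hp.le)
    have h3 := h2.tendsto
    simp only [Real.zero_rpow hp.ne'] at h3
    exact h3.mono_left nhdsWithin_le_nhds
  refine squeeze_zero' ?_ ?_ h1
  · filter_upwards [self_mem_nhdsWithin] with r hr
    have hr0 : (0 : ℝ) < r := hr
    exact mul_nonneg (Real.rpow_nonneg hr0.le _) (ge_pos T r).le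
  · filter_upwards [self_mem_nhdsWithin] with r hr
    have hr0 : (0 : ℝ) < r := hr
    exact mul_le_of_le_one_right (Real.rpow_nonneg hr0.le _) (ge_le_one T r)

theorem tendsto_rpow_ge_atTop {T p : ℝ} (hT : 1 < T) :
    Tendsto (fun r : ℝ => r ^ p * ge T r) atTop (𝓝 0) := by
  have hD := DD_pos hT
  have hpi := Real.pi_pos
  set b : ℝ := Real.pi ^ 2 / DD T ^ 2 with hb
  have hb0 : 0 < b := by positivity
  have h1 : Tendsto (fun r : ℝ => Real.exp ((T / DD T) ^ 2 / 2) * (r ^ p * Real.exp (-b * r)))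
      atTop (𝓝 0) := by
    have := (tendsto_rpow_mul_exp_neg_mul_atTop_nhds_zero p b hb0).const_mul
      (Real.exp ((T / DD T) ^ 2 / 2))
    simpa using this
  refine squeeze_zero' ?_ ?_ h1
  · filter_upwards [eventually_gt_atTop (0 : ℝ)] with r hr
    exact mul_nonneg (Real.rpow_nonneg hr.le _) (ge_pos T r).le
  · filter_upwards [eventually_gt_atTop (1 : ℝ)] with r hr
    have hr0 : 0 < r := by linarith
    have h2 := ge_le_gauss hT r
    have h3 : Real.exp (-b * r ^ 2) ≤ Real.exp (-b * r) := by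
      refine Real.exp_le_exp.2 ?_
      have : b * r ≤ b * r ^ 2 := mul_le_mul_of_nonneg_left (by nlinarith) hb0.le
      linarith
    have h4 : 0 < r ^ p := Real.rpow_pos_of_pos hr0 p
    calc r ^ p * ge T r ≤ r ^ p * (Real.exp ((T / DD T) ^ 2 / 2) * Real.exp (-b * r ^ 2)) :=
          mul_le_mul_of_nonneg_left h2 h4.le
      _ ≤ r ^ p * (Real.exp ((T / DD T) ^ 2 / 2) * Real.exp (-b * r)) := by
          refine mul_le_mul_of_nonneg_left ?_ h4.le
          exact mul_le_mul_of_nonneg_left h3 (Real.exp_pos _).le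
      _ = _ := by ring

theorem Bd.tendsto_zero {T : ℝ} {j : ℕ} {A : ℝ} {F : ℝ → ℂ} (h : Bd T j A F)
    (hA : 0 ≤ A) {s : ℂ} (hs : 0 < s.re) :
    Tendsto (fun r : ℝ => (r : ℂ) ^ s * F r) (𝓝[>] 0) (𝓝 0) := by
  set δ : ℝ := s.re / 2 with hδ
  have hδ0 : 0 < δ := by rw [hδ]; linarith
  rw [tendsto_zero_iff_norm_tendsto_zero]
  have h1 : Tendsto (fun r : ℝ => A * (1 + j / δ) ^ j *
      (r ^ (s.re + δ) * ge T r + r ^ (s.re - δ) * ge T r)) (𝓝[>] 0) (𝓝 0) := by
    have := ((tendsto_rpow_ge_zero (T := T) (p := s.re + δ) (by linarith)).add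
      (tendsto_rpow_ge_zero (T := T) (p := s.re - δ) (by rw [hδ]; linarith))).const_mul
      (A * (1 + j / δ) ^ j)
    simpa using this
  refine squeeze_zero' (Eventually.of_forall fun _ => norm_nonneg _) ?_ h1
  filter_upwards [self_mem_nhdsWithin] with r hr
  exact h.norm_le_rpow hA hδ0 hr

theorem Bd.tendsto_atTop {T : ℝ} (hT : 1 < T) {j : ℕ} {A : ℝ} {F : ℝ → ℂ} (h : Bd T j A F)
    (hA : 0 ≤ A) (s : ℂ) :
    Tendsto (fun r : ℝ => (r : ℂ) ^ s * F r) atTop (𝓝 0) := by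
  rw [tendsto_zero_iff_norm_tendsto_zero]
  have h1 : Tendsto (fun r : ℝ => A * (1 + j / 1) ^ j *
      (r ^ (s.re + 1) * ge T r + r ^ (s.re - 1) * ge T r)) atTop (𝓝 0) := by
    have := ((tendsto_rpow_ge_atTop (p := s.re + 1) hT).add
      (tendsto_rpow_ge_atTop (p := s.re - 1) hT)).const_mul (A * (1 + j / 1) ^ j)
    simpa using this
  refine squeeze_zero' (Eventually.of_forall fun _ => norm_nonneg _) ?_ h1
  filter_upwards [eventually_gt_atTop (0 : ℝ)] with r hr
  exact h.norm_le_rpow hA one_pos hr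

/-- integration by parts for the Mellin transform -/
theorem mellin_theta {T : ℝ} (hT : 1 < T) {j : ℕ} {A B : ℝ} {F G : ℝ → ℂ} (hF : Bd T j A F)
    (hG : Bd T j B G) (hA : 0 ≤ A) (hB : 0 ≤ B)
    (hd : ∀ r : ℝ, 0 < r → HasDerivAt F (G r / r) r) {s : ℂ} (hs : 0 < s.re) :
    s * mellin F s = -mellin G s := by
  have hs0 : s ≠ 0 := by rintro rfl; simp at hs
  have hv : ∀ x ∈ Ioi (0 : ℝ), HasDerivAt (fun r : ℝ => (r : ℂ) ^ s / s) ((x : ℂ) ^ (s - 1)) x := by
    intro x hx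
    have hx0 : (0 : ℝ) < x := hx
    have h1 := (hasDerivAt_ofReal_cpow_const hx0.ne' hs0).div_const s
    rwa [mul_div_cancel_left₀ _ hs0] at h1
  have hu : ∀ x ∈ Ioi (0 : ℝ), HasDerivAt F (G x / x) x := fun x hx => hd x hx
  have h1 : IntegrableOn (F * fun r : ℝ => (r : ℂ) ^ (s - 1)) (Ioi 0) := by
    have := hF.integrableOn hT hA (s := s - 1) (by simpa using hs)
    refine IntegrableOn.congr_fun this ?_ measurableSet_Ioi
    intro r _
    simp only [Pi.mul_apply]
    ring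
  have e2 : ∀ r : ℝ, 0 < r → G r / r * ((r : ℂ) ^ s / s) = (1 / s) * ((r : ℂ) ^ (s - 1) * G r) := by
    intro r hr
    have hr' : (r : ℂ) ≠ 0 := by exact_mod_cast hr.ne'
    rw [Complex.cpow_sub _ _ hr', Complex.cpow_one]
    field_simp
  have h2 : IntegrableOn ((fun r : ℝ => G r / r) * fun r : ℝ => (r : ℂ) ^ s / s) (Ioi 0) := by
    have h3 : IntegrableOn (fun r : ℝ => (1 / s) * ((r : ℂ) ^ (s - 1) * G r)) (Ioi 0) :=
      (hG.integrableOn hT hB (s := s - 1) (by simpa using hs)).const_mul _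
    refine IntegrableOn.congr_fun h3 ?_ measurableSet_Ioi
    intro r hr
    simp only [Pi.mul_apply]
    rw [e2 r hr]
  have h0 : Tendsto (F * fun r : ℝ => (r : ℂ) ^ s / s) (𝓝[>] 0) (𝓝 0) := by
    have := (hF.tendsto_zero hA hs).const_mul (1 / s)
    rw [mul_zero] at this
    refine this.congr fun r => ?_
    simp only [Pi.mul_apply]
    ring
  have hinf : Tendsto (F * fun r : ℝ => (r : ℂ) ^ s / s) atTop (𝓝 0) := by
    have := (hF.tendsto_atTop hT hA s).const_mul (1 / s)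
    rw [mul_zero] at this
    refine this.congr fun r => ?_
    simp only [Pi.mul_apply]
    ring
  have hmain := integral_Ioi_mul_deriv_eq_deriv_mul hu hv h1 h2 h0 hinf
  have e1 : ∫ x in Ioi (0 : ℝ), F x * (x : ℂ) ^ (s - 1) = mellin F s := by
    rw [mellin]
    refine setIntegral_congr_fun measurableSet_Ioi fun r _ => ?_
    simp only [smul_eq_mul]
    ring
  have e3 : ∫ x in Ioi (0 : ℝ), G x / x * ((x : ℂ) ^ s / s) = (1 / s) * mellin G s := by
    rw [mellin, ← integral_const_mul]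
    refine setIntegral_congr_fun measurableSet_Ioi fun r hr => ?_
    simp only [smul_eq_mul]
    exact e2 r hr
  rw [e1, e3] at hmain
  rw [hmain]
  field_simp
  ring

/-- the uniform bound of the Mellin transform -/
theorem Bd.norm_mellin_le {T : ℝ} (hT : 3 ≤ T) {j : ℕ} {A : ℝ} {F : ℝ → ℂ} (h : Bd T j A F)
    (hA : 0 ≤ A) {s : ℂ} (hs : 1 / 2 ≤ s.re) (hs3 : s.re ≤ 3) :
    ‖mellin F s‖ ≤ A * ((1 + 4 * j) ^ j * (2 * Real.log T) ^ j) * 5000 *
      (T ^ (s.re - 1) * DD T) := by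
  have hT0 : 0 < T := by linarith
  have hT1 : 1 < T := by linarith
  have hL := one_le_log hT
  have hD := DD_pos hT1
  obtain ⟨ha, hb⟩ := integral_rpow_ge_le hT (p := s.re - 1 + 1 / 4) (by linarith) (by linarith)
  obtain ⟨hc, hd⟩ := integral_rpow_ge_le hT (p := s.re - 1 - 1 / 4) (by linarith) (by linarith)
  set K : ℝ := A * ((1 + 4 * j) ^ j * (2 * Real.log T) ^ j) * T ^ (s.re - 1) with hK
  have hK0 : 0 ≤ K := by positivity
  rw [mellin]
  have hbound : ∀ r ∈ Ioi (0 : ℝ), ‖(r : ℂ) ^ (s - 1) • F r‖ ≤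
      K * ((r / T) ^ (s.re - 1 + 1 / 4) * ge T r + (r / T) ^ (s.re - 1 - 1 / 4) * ge T r) := by
    intro r hr
    have hr0 : (0 : ℝ) < r := hr
    have hρ : 0 < r / T := by positivity
    rw [smul_eq_mul, norm_mul, Complex.norm_cpow_eq_rpow_re_of_pos hr0]
    have e1 : (s - 1).re = s.re - 1 := by simp
    rw [e1]
    have h1 := h.2 r hr0
    have h2 : (1 + |Real.log r|) ^ j ≤ (2 * Real.log T) ^ j * ((1 + 4 * j) ^ j *
        ((r / T) ^ (1 / 4 : ℝ) + (r / T) ^ (-(1 / 4) : ℝ))) := by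
      have h3 : 1 + |Real.log r| ≤ 2 * Real.log T * (1 + |Real.log (r / T)|) := by
        have e2 : Real.log r = Real.log (r / T) + Real.log T := by
          rw [Real.log_div hr0.ne' hT0.ne']; ring
        have h4 : |Real.log r| ≤ |Real.log (r / T)| + Real.log T := by
          rw [e2]
          refine (abs_add_le _ _).trans ?_
          rw [abs_of_nonneg (by linarith : 0 ≤ Real.log T)]
        nlinarith [abs_nonneg (Real.log (r / T))]
      have h5 := log_pow_le j (δ := 1 / 4) (by norm_num) hρ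
      have e3 : (1 : ℝ) + j / (1 / 4) = 1 + 4 * j := by ring
      rw [e3] at h5
      calc (1 + |Real.log r|) ^ j ≤ (2 * Real.log T * (1 + |Real.log (r / T)|)) ^ j :=
            pow_le_pow_left₀ (by positivity) h3 j
        _ = (2 * Real.log T) ^ j * (1 + |Real.log (r / T)|) ^ j := by rw [mul_pow]
        _ ≤ _ := mul_le_mul_of_nonneg_left h5 (by positivity)
    have h6 : r ^ (s.re - 1) = T ^ (s.re - 1) * (r / T) ^ (s.re - 1) := by
      rw [← Real.mul_rpow hT0.le hρ.le]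
      congr 1
      field_simp
    have h7 := ge_pos T r
    have h8 : 0 ≤ r ^ (s.re - 1) := Real.rpow_nonneg hr0.le _
    calc r ^ (s.re - 1) * ‖F r‖ ≤ r ^ (s.re - 1) * (A * (1 + |Real.log r|) ^ j * ge T r) :=
          mul_le_mul_of_nonneg_left h1 h8
      _ ≤ r ^ (s.re - 1) * (A * ((2 * Real.log T) ^ j * ((1 + 4 * j) ^ j *
        ((r / T) ^ (1 / 4 : ℝ) + (r / T) ^ (-(1 / 4) : ℝ)))) * ge T r) := by
          refine mul_le_mul_of_nonneg_left ?_ h8
          refine mul_le_mul_of_nonneg_right ?_ h7.le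
          exact mul_le_mul_of_nonneg_left h2 hA
      _ = _ := by
          rw [h6, hK, Real.rpow_add hρ, sub_eq_add_neg (s.re - 1) (1 / 4), Real.rpow_add hρ]
          ring
  have hint : IntegrableOn (fun r : ℝ => K * ((r / T) ^ (s.re - 1 + 1 / 4) * ge T r +
      (r / T) ^ (s.re - 1 - 1 / 4) * ge T r)) (Ioi 0) := (Integrable.add ha hc).const_mul _
  refine (norm_integral_le_of_norm_le hint
    ((ae_restrict_mem measurableSet_Ioi).mono hbound)).trans ?_
  rw [integral_const_mul, integral_add ha hc]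
  have h9 : 8 / (s.re - 1 + 1 / 4 + 1) ≤ 32 := by
    rw [div_le_iff₀ (by linarith)]; linarith
  have h10 : 8 / (s.re - 1 - 1 / 4 + 1) ≤ 32 := by
    rw [div_le_iff₀ (by linarith)]; linarith
  have h11 : (∫ r in Ioi (0 : ℝ), (r / T) ^ (s.re - 1 + 1 / 4) * ge T r) +
      (∫ r in Ioi (0 : ℝ), (r / T) ^ (s.re - 1 - 1 / 4) * ge T r) ≤ 5000 * DD T := by
    nlinarith
  calc K * ((∫ r in Ioi (0 : ℝ), (r / T) ^ (s.re - 1 + 1 / 4) * ge T r) +
      (∫ r in Ioi (0 : ℝ), (r / T) ^ (s.re - 1 - 1 / 4) * ge T r)) ≤ K * (5000 * DD T) :=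
        mul_le_mul_of_nonneg_left h11 hK0
    _ = _ := by rw [hK]; ring

end Pool.Agent.Lib.MP_6bc78b_nt.MS.P3.H6
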